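import Mathlib
import Pool.Agent.Helper105_Sub.Tab

set_option autoImplicit false

namespace Pool.Agent.Helper105

open scoped Classical

section
variable {Y : Type*} {k : ℕ}

/-- fibre decomposition of a sum over tables. -/
theorem sum_Tab_union {D₀ D₁ : Finset Y} (hd : Disjoint D₀ D₁) (T₀ : Y → Fin k)
    (f : (Y → Fin k) → ℝ) :
    ∑ T ∈ Tab (D₀ ∪ D₁) T₀, f T = ∑ T ∈ Tab D₀ T₀, ∑ S ∈ Tab D₁ T, f S := by
  have hfib : ∀ T ∈ Tab D₀ T₀, Tab D₁ T = (Tab (D₀ ∪ D₁) T₀).filter
      (fun S => (fun y => if y ∈ D₀ then S y else T₀ y) = T) := by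
    intro T hT
    rw [mem_Tab] at hT
    ext S
    simp only [Finset.mem_filter, mem_Tab]
    constructor
    · intro h1
      refine ⟨fun y hy => ?_, ?_⟩
      · rw [Finset.mem_union, not_or] at hy
        rw [h1 y hy.2, hT y hy.1]
      · funext y
        by_cases hy : y ∈ D₀
        · rw [if_pos hy]
          exact h1 y (Finset.disjoint_left.1 hd hy)
        · rw [if_neg hy, hT y hy]
    · rintro ⟨h1, h3⟩ y hy
      rw [← h3]
      by_cases hy0 : y ∈ D₀
      · simp [hy0]
      · simp only [hy0, if_false]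
        exact h1 y (by simp [hy, hy0])
  have e : ∑ T ∈ Tab D₀ T₀, ∑ S ∈ Tab D₁ T, f S = ∑ T ∈ Tab D₀ T₀, ∑ S ∈ (Tab (D₀ ∪ D₁) T₀).filter
      (fun S => (fun y => if y ∈ D₀ then S y else T₀ y) = T), f S :=
    Finset.sum_congr rfl fun T hT => by rw [hfib T hT]
  rw [e]
  refine (Finset.sum_fiberwise_of_maps_to
    (g := fun S : Y → Fin k => fun y => if y ∈ D₀ then S y else T₀ y) ?_ f).symm
  intro S _
  rw [mem_Tab]
  intro y hy
  simp [hy]

/-- the sum only depends on the background where the summand does. -/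
theorem sum_Tab_congr {D₁ : Finset Y} {T T' : Y → Fin k} (f : (Y → Fin k) → ℝ)
    (hf : ∀ S S' : Y → Fin k, (∀ y ∈ D₁, S y = S' y) → (∀ y, y ∉ D₁ → S y = T y) →
      (∀ y, y ∉ D₁ → S' y = T' y) → f S = f S') :
    ∑ S ∈ Tab D₁ T, f S = ∑ S ∈ Tab D₁ T', f S := by
  refine Finset.sum_nbij' (fun S y => if y ∈ D₁ then S y else T' y)
    (fun S y => if y ∈ D₁ then S y else T y) ?_ ?_ ?_ ?_ ?_
  · intro S hS
    rw [mem_Tab] at hS ⊢
    intro y hy
    simp [hy]
  · intro S hS
    rw [mem_Tab] at hS ⊢
    intro y hy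
    simp [hy]
  · intro S hS
    rw [mem_Tab] at hS
    funext y
    by_cases h1 : y ∈ D₁
    · simp [h1]
    · simp [h1, hS y h1]
  · intro S hS
    rw [mem_Tab] at hS
    funext y
    by_cases h1 : y ∈ D₁
    · simp [h1]
    · simp [h1, hS y h1]
  · intro S hS
    rw [mem_Tab] at hS
    refine hf _ _ (fun y hy => by simp [hy]) hS (fun y hy => by simp [hy])

/-- independence. -/
theorem sum_Tab_indep (K D : Finset Y) (hD : D ⊆ K) (T₀ : Y → Fin k)
    (g G : (Y → Fin k) → ℝ)
    (hg : ∀ T T' : Y → Fin k, (∀ y, (y ∈ K → y ∈ D) → T y = T' y) → g T = g T')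
    (hG : ∀ T T' : Y → Fin k, (∀ y, y ∉ D → T y = T' y) → G T = G T') :
    (∑ T ∈ Tab K T₀, g T * G T) * (k : ℝ) ^ K.card =
      (∑ T ∈ Tab K T₀, g T) * ∑ T ∈ Tab K T₀, G T := by
  have hK : D ∪ K \ D = K := Finset.union_sdiff_of_subset hD
  have hd : Disjoint D (K \ D) := Finset.disjoint_sdiff
  obtain ⟨c, hc⟩ : ∃ c, c = ∑ S ∈ Tab (K \ D) T₀, G S := ⟨_, rfl⟩
  have hGc : ∀ T ∈ Tab D T₀, ∑ S ∈ Tab (K \ D) T, G S = c := by
    intro T hT
    rw [mem_Tab] at hT
    rw [hc]
    refine sum_Tab_congr G fun S S' h1 h2 h3 => hG _ _ fun y hy => ?_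
    by_cases hyK : y ∈ K \ D
    · exact h1 y hyK
    · rw [h2 y hyK, h3 y hyK, hT y hy]
  have hgT : ∀ T ∈ Tab D T₀, ∀ S ∈ Tab (K \ D) T, g S = g T := by
    intro T _ S hS
    rw [mem_Tab] at hS
    refine hg _ _ fun y hy => hS y ?_
    rw [Finset.mem_sdiff, not_and, not_not]
    exact hy
  have hcardK : (k : ℝ) ^ K.card = (k : ℝ) ^ D.card * (k : ℝ) ^ (K \ D).card := by
    rw [← pow_add, ← Finset.card_union_of_disjoint hd, hK]
  have e1 : ∑ T ∈ Tab K T₀, g T * G T = (∑ T ∈ Tab D T₀, g T) * c := by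
    conv_lhs => rw [← hK, sum_Tab_union hd]
    rw [Finset.sum_mul]
    refine Finset.sum_congr rfl fun T hT => ?_
    rw [← hGc T hT, Finset.mul_sum]
    exact Finset.sum_congr rfl fun S hS => by rw [hgT T hT S hS]
  have e2 : ∑ T ∈ Tab K T₀, g T = (∑ T ∈ Tab D T₀, g T) * (k : ℝ) ^ (K \ D).card := by
    conv_lhs => rw [← hK, sum_Tab_union hd]
    rw [Finset.sum_mul]
    refine Finset.sum_congr rfl fun T hT => ?_
    rw [Finset.sum_congr rfl fun S hS => hgT T hT S hS, Finset.sum_const, card_Tab,
      nsmul_eq_mul, mul_comm]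
    push_cast
    ring
  have e3 : ∑ T ∈ Tab K T₀, G T = (k : ℝ) ^ D.card * c := by
    conv_lhs => rw [← hK, sum_Tab_union hd]
    rw [Finset.sum_congr rfl fun T hT => hGc T hT, Finset.sum_const, card_Tab, nsmul_eq_mul]
    push_cast
    ring
  rw [e1, e2, e3, hcardK]
  ring

/-- the truncated load. -/
noncomputable def hld {V Λ : Type*} (π : Λ → V) (g : Λ → (Y → Fin k) → ℝ) (J : Finset Λ) (v : V)
    (T : Y → Fin k) : ℝ := max 0 (1 - ∑ a ∈ J.filter (fun a => π a = v), g a T)

/-- A local lemma for sums: every test `v` adds up the values of finitely many local functions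
`g a`, and we look for a map for which all the sums are less than `1`. -/
theorem soft_lll {V Λ : Type*} (hk : 0 < k) (K : Finset Y) (T₀ : Y → Fin k)
    (I : Finset Λ) (π : Λ → V) (D : Λ → Finset Y) (g : Λ → (Y → Fin k) → ℝ)
    (hg0 : ∀ a T, 0 ≤ g a T) (hloc : ∀ a T T', (∀ y ∈ D a, T y = T' y) → g a T = g a T')
    (ω : Λ → ℝ) (hω0 : ∀ a, 0 ≤ ω a) (hω1 : ∀ a ∈ I, ω a < 1)
    (h : ∀ a ∈ I, ∑ T ∈ Tab K T₀, g a T ≤
      (ω a * ∏ u ∈ I.filter (fun u => u ≠ a ∧ (π u = π a ∨ ¬ Disjoint (D a ∩ K) (D u ∩ K))),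
        (1 - ω u)) * (k : ℝ) ^ K.card) :
    ∃ T ∈ Tab K T₀, ∀ v, ∑ a ∈ I.filter (fun a => π a = v), g a T < 1 := by
  have hkK : (0 : ℝ) < (k : ℝ) ^ K.card := by
    have : (0 : ℝ) < k := by exact_mod_cast hk
    positivity
  obtain ⟨W, hW⟩ : ∃ W : Finset V, W = I.image π := ⟨_, rfl⟩
  obtain ⟨Z, hZ⟩ : ∃ Z : Finset Λ → ℝ, ∀ J, Z J = ∑ T ∈ Tab K T₀, ∏ v ∈ W, hld π g J v T :=
    ⟨_, fun _ => rfl⟩
  have hh0 : ∀ J v T, 0 ≤ hld π g J v T := fun J v T => le_max_left _ _
  have hanti : ∀ J J' : Finset Λ, J' ⊆ J → ∀ v T, hld π g J v T ≤ hld π g J' v T := by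
    intro J J' hJ v T
    refine max_le_max le_rfl ?_
    have := Finset.sum_le_sum_of_subset_of_nonneg
      (Finset.filter_subset_filter (fun a => π a = v) hJ)
      (fun a _ _ => hg0 a T)
    linarith
  have hZ0 : ∀ J, 0 ≤ Z J := by
    intro J
    rw [hZ]
    exact Finset.sum_nonneg fun T _ => Finset.prod_nonneg fun v _ => hh0 J v T
  have key : ∀ n : ℕ, ∀ J ⊆ I, J.card ≤ n → ∀ a ∈ I, a ∉ J →
      (1 - ω a) * Z J ≤ Z (insert a J) := by
    intro n
    induction n using Nat.strong_induction_on with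
    | _ n ih =>
      intro J hJI hJn a haI haJ
      have haW : π a ∈ W := by rw [hW]; exact Finset.mem_image_of_mem _ haI
      obtain ⟨J', hJ'⟩ : ∃ J' : Finset Λ, J' = J.filter (fun b => π b ≠ π a ∧
          Disjoint (D a ∩ K) (D b ∩ K)) := ⟨_, rfl⟩
      have hJ'J : J' ⊆ J := by rw [hJ']; exact Finset.filter_subset _ _
      -- the chain from `J'` to `J`
      have hchain : ∀ R : Finset Λ, R ⊆ J \ J' →
          (∏ u ∈ R, (1 - ω u)) * Z J' ≤ Z (J' ∪ R) := by
        intro R
        induction R using Finset.induction_on with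
        | empty => intro _; simp
        | @insert b R hb ihR =>
          intro hR
          have hbJ : b ∈ J \ J' := hR (Finset.mem_insert_self _ _)
          have hRs : R ⊆ J \ J' := fun x hx => hR (Finset.mem_insert_of_mem hx)
          have hbn : b ∉ J' ∪ R := by
            rw [Finset.mem_union, not_or]
            exact ⟨(Finset.mem_sdiff.1 hbJ).2, hb⟩
          have hsub : J' ∪ R ⊆ J := by
            intro x hx
            rcases Finset.mem_union.1 hx with h | h
            · exact hJ'J h
            · exact (Finset.mem_sdiff.1 (hRs h)).1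
          have hbJ1 := (Finset.mem_sdiff.1 hbJ).1
          have hlt : (J' ∪ R).card < n := by
            have h1 : insert b (J' ∪ R) ⊆ J := Finset.insert_subset hbJ1 hsub
            have h2 := Finset.card_le_card h1
            rw [Finset.card_insert_of_notMem hbn] at h2
            omega
          have h3 := ih _ hlt (J' ∪ R) (hsub.trans hJI) le_rfl b (hJI hbJ1) hbn
          have e : J' ∪ insert b R = insert b (J' ∪ R) := by
            ext x; simp only [Finset.mem_union, Finset.mem_insert]; tauto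
          rw [e, Finset.prod_insert hb, mul_assoc]
          refine le_trans ?_ h3
          exact mul_le_mul_of_nonneg_left (ihR hRs) (by linarith [hω1 b (hJI hbJ1)])
      have hch := hchain (J \ J') (Finset.Subset.refl _)
      rw [Finset.union_sdiff_of_subset hJ'J] at hch
      -- the loss
      have hloss : Z J - Z (insert a J) ≤
          ∑ T ∈ Tab K T₀, g a T * ∏ v ∈ W.erase (π a), hld π g J' v T := by
        rw [hZ, hZ, ← Finset.sum_sub_distrib]
        refine Finset.sum_le_sum fun T _ => ?_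
        have e1 : ∀ v ∈ W.erase (π a), hld π g (insert a J) v T = hld π g J v T := by
          intro v hv
          have hne : π a ≠ v := (Finset.ne_of_mem_erase hv).symm
          unfold hld
          rw [Finset.filter_insert, if_neg hne]
        rw [← Finset.mul_prod_erase W _ haW, ← Finset.mul_prod_erase W _ haW,
          Finset.prod_congr rfl e1]
        have e2 : hld π g J (π a) T - hld π g (insert a J) (π a) T ≤ g a T := by
          unfold hld
          rw [Finset.filter_insert, if_pos rfl, Finset.sum_insert (by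
            intro h; exact haJ (Finset.mem_filter.1 h).1)]
          have h0 := hg0 a T
          rcases le_total (1 - ∑ b ∈ J.filter (fun b => π b = π a), g b T) 0 with h1 | h1
          · rw [max_eq_left h1]
            have := le_max_left (0 : ℝ) (1 - (g a T + ∑ b ∈ J.filter (fun b => π b = π a), g b T))
            linarith
          · rw [max_eq_right h1]
            have := le_max_right (0 : ℝ) (1 - (g a T + ∑ b ∈ J.filter (fun b => π b = π a), g b T))
            linarith
        have e3 : 0 ≤ ∏ v ∈ W.erase (π a), hld π g J v T :=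
          Finset.prod_nonneg fun v _ => hh0 J v T
        have e4 : ∏ v ∈ W.erase (π a), hld π g J v T ≤ ∏ v ∈ W.erase (π a), hld π g J' v T :=
          Finset.prod_le_prod (fun v _ => hh0 J v T) fun v _ => hanti J J' hJ'J v T
        calc _ = (hld π g J (π a) T - hld π g (insert a J) (π a) T) *
              ∏ v ∈ W.erase (π a), hld π g J v T := by ring
          _ ≤ g a T * ∏ v ∈ W.erase (π a), hld π g J v T := mul_le_mul_of_nonneg_right e2 e3
          _ ≤ _ := mul_le_mul_of_nonneg_left e4 (hg0 a T)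
      have hZJ' : ∑ T ∈ Tab K T₀, ∏ v ∈ W.erase (π a), hld π g J' v T = Z J' := by
        rw [hZ]
        refine Finset.sum_congr rfl fun T _ => ?_
        rw [← Finset.mul_prod_erase W _ haW]
        have : hld π g J' (π a) T = 1 := by
          unfold hld
          have e : J'.filter (fun b => π b = π a) = ∅ := by
            rw [Finset.filter_eq_empty_iff]
            intro b hb
            rw [hJ'] at hb
            exact (Finset.mem_filter.1 hb).2.1
          rw [e]; simp
        rw [this, one_mul]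
      have hind := sum_Tab_indep K (D a ∩ K) Finset.inter_subset_right T₀ (g a)
        (fun T => ∏ v ∈ W.erase (π a), hld π g J' v T) (by
          intro T T' hTT
          refine hloc a T T' fun y hy => hTT y fun hyK => Finset.mem_inter.2 ⟨hy, hyK⟩) (by
          intro T T' hTT
          refine Finset.prod_congr rfl fun v _ => ?_
          unfold hld
          congr 2
          refine Finset.sum_congr rfl fun b hb => hloc b T T' fun y hy => ?_
          apply hTT
          intro hya
          have hb' := (Finset.mem_filter.1 hb).1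
          rw [hJ'] at hb'
          have hdj := (Finset.mem_filter.1 hb').2.2
          exact Finset.disjoint_left.1 hdj hya
            (Finset.mem_inter.2 ⟨hy, (Finset.mem_inter.1 hya).2⟩))
      rw [hZJ'] at hind
      have hrel : ∏ u ∈ I.filter (fun u => u ≠ a ∧ (π u = π a ∨
          ¬ Disjoint (D a ∩ K) (D u ∩ K))), (1 - ω u) ≤ ∏ u ∈ J \ J', (1 - ω u) := by
        have hs : J \ J' ⊆ I.filter (fun u => u ≠ a ∧ (π u = π a ∨
            ¬ Disjoint (D a ∩ K) (D u ∩ K))) := by
          intro u hu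
          obtain ⟨h1, h2⟩ := Finset.mem_sdiff.1 hu
          refine Finset.mem_filter.2 ⟨hJI h1, fun h => haJ (h ▸ h1), ?_⟩
          by_contra hcon
          rw [not_or, not_not] at hcon
          apply h2
          rw [hJ']
          exact Finset.mem_filter.2 ⟨h1, hcon.1, hcon.2⟩
        rw [← Finset.prod_sdiff hs]
        refine mul_le_of_le_one_left (Finset.prod_nonneg fun u hu => ?_)
          (Finset.prod_le_one (fun u hu => ?_) fun u _ => by linarith [hω0 u])
        · linarith [hω1 u (hJI (Finset.mem_sdiff.1 hu).1)]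
        · linarith [hω1 u (Finset.mem_filter.1 (Finset.mem_sdiff.1 hu).1).1]
      have h5 : (∑ T ∈ Tab K T₀, g a T * ∏ v ∈ W.erase (π a), hld π g J' v T) ≤ ω a * Z J := by
        refine le_of_mul_le_mul_right ?_ hkK
        rw [hind]
        calc (∑ T ∈ Tab K T₀, g a T) * Z J' ≤ ((ω a * ∏ u ∈ I.filter (fun u => u ≠ a ∧
              (π u = π a ∨ ¬ Disjoint (D a ∩ K) (D u ∩ K))), (1 - ω u)) *
              (k : ℝ) ^ K.card) * Z J' := mul_le_mul_of_nonneg_right (h a haI) (hZ0 J')
          _ ≤ ((ω a * ∏ u ∈ J \ J', (1 - ω u)) * (k : ℝ) ^ K.card) * Z J' := by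
              refine mul_le_mul_of_nonneg_right (mul_le_mul_of_nonneg_right
                (mul_le_mul_of_nonneg_left hrel (hω0 a)) hkK.le) (hZ0 J')
          _ = ω a * ((∏ u ∈ J \ J', (1 - ω u)) * Z J') * (k : ℝ) ^ K.card := by ring
          _ ≤ ω a * Z J * (k : ℝ) ^ K.card :=
              mul_le_mul_of_nonneg_right (mul_le_mul_of_nonneg_left hch (hω0 a)) hkK.le
      linarith
  have hall : ∀ J : Finset Λ, J ⊆ I → 0 < Z J := by
    intro J
    induction J using Finset.induction_on with
    | empty =>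
      intro _
      rw [hZ]
      have : ∀ T ∈ Tab K T₀, ∏ v ∈ W, hld π g ∅ v T = 1 := by
        intro T _
        refine Finset.prod_eq_one fun v _ => ?_
        simp [hld]
      rw [Finset.sum_congr rfl this, Finset.sum_const, card_Tab, nsmul_eq_mul, mul_one]
      exact_mod_cast hkK
    | @insert a J ha ih =>
      intro hJ
      have h1 := ih ((Finset.subset_insert _ _).trans hJ)
      have haI : a ∈ I := hJ (Finset.mem_insert_self _ _)
      have h2 := key _ J ((Finset.subset_insert _ _).trans hJ) le_rfl a haI ha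
      have h3 : 0 < 1 - ω a := by linarith [hω1 a haI]
      exact lt_of_lt_of_le (mul_pos h3 h1) h2
  have hpos := hall I (Finset.Subset.refl _)
  rw [hZ] at hpos
  obtain ⟨T, hT, hTpos⟩ := Finset.exists_lt_of_sum_lt (f := fun _ => (0 : ℝ)) (by simpa using hpos)
  refine ⟨T, hT, fun v => ?_⟩
  by_cases hv : v ∈ W
  · have h1 : hld π g I v T ≠ 0 := by
      intro h0
      rw [Finset.prod_eq_zero hv h0] at hTpos
      exact lt_irrefl _ hTpos
    by_contra hcon
    push Not at hcon
    apply h1
    unfold hld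
    exact max_eq_left (by linarith)
  · have e : I.filter (fun a => π a = v) = ∅ := by
      rw [Finset.filter_eq_empty_iff]
      intro a ha hav
      apply hv
      rw [hW, ← hav]
      exact Finset.mem_image_of_mem _ ha
    rw [e]; simp

end

end Pool.Agent.Helper105
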