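import Mathlib
import Pool.Agent.Helper105_Full.Soft
import Pool.Agent.Helper105_Sub.Two

set_option autoImplicit false

namespace Pool.Agent.Helper105

open MeasureTheory Set
open scoped Classical

section
variable {Y : Type*} {k : ℕ}

/-- conditional probability of `Bad`, given the values outside `U`. -/
noncomputable def cp (D : Finset Y) (Bad : (Y → Fin k) → Prop) (U : Set Y) (T : Y → Fin k) : ℝ :=
  (((Tab (D.filter (· ∈ U)) T).filter Bad).card : ℝ) / (k : ℝ) ^ (D.filter (· ∈ U)).card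

theorem cp_nonneg (D : Finset Y) (Bad : (Y → Fin k) → Prop) (U : Set Y) (T : Y → Fin k) :
    0 ≤ cp D Bad U T := by
  unfold cp; positivity

theorem cp_loc {D : Finset Y} {Bad : (Y → Fin k) → Prop}
    (hloc : ∀ T T' : Y → Fin k, (∀ y ∈ D, T y = T' y) → (Bad T ↔ Bad T')) (U : Set Y)
    {T T' : Y → Fin k} (h : ∀ y ∈ D, y ∉ U → T y = T' y) : cp D Bad U T = cp D Bad U T' := by
  unfold cp
  rw [card_filter_congr (D := D) (T := T) (T' := T') (fun y hy hy' => h y hy fun hU =>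
    hy' (Finset.mem_filter.2 ⟨hy, hU⟩)) hloc]

/-- the tower property. -/
theorem cp_tower (hk : 0 < k) {D : Finset Y} {Bad : (Y → Fin k) → Prop}
    (hloc : ∀ T T' : Y → Fin k, (∀ y ∈ D, T y = T' y) → (Bad T ↔ Bad T')) {U U' : Set Y}
    {K : Finset Y} (hK : ∀ y ∈ D, y ∈ U ↔ (y ∈ K ∨ y ∈ U')) (hd : ∀ y ∈ K, y ∉ U')
    (T₀ : Y → Fin k) :
    ∑ T ∈ Tab K T₀, cp D Bad U' T = cp D Bad U T₀ * (k : ℝ) ^ K.card := by
  have hk' : (0 : ℝ) < k := by exact_mod_cast hk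
  obtain ⟨a, ha⟩ : ∃ a : Finset Y, a = D.filter (· ∈ U') := ⟨_, rfl⟩
  obtain ⟨b, hb⟩ : ∃ b : Finset Y, b = D.filter (· ∈ K) := ⟨_, rfl⟩
  obtain ⟨e, he⟩ : ∃ e : Finset Y, e = K.filter (· ∉ D) := ⟨_, rfl⟩
  have hab : ∀ y, y ∈ D.filter (· ∈ U) ↔ y ∈ b ∨ y ∈ a := by
    intro y
    rw [ha, hb, Finset.mem_filter, Finset.mem_filter, Finset.mem_filter]
    constructor
    · rintro ⟨h1, h2⟩
      rcases (hK y h1).1 h2 with h | h
      · exact Or.inl ⟨h1, h⟩
      · exact Or.inr ⟨h1, h⟩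
    · rintro (⟨h1, h2⟩ | ⟨h1, h2⟩)
      · exact ⟨h1, (hK y h1).2 (Or.inl h2)⟩
      · exact ⟨h1, (hK y h1).2 (Or.inr h2)⟩
  have hba : ∀ y ∈ b, y ∉ a := by
    intro y h1 h2
    rw [hb, Finset.mem_filter] at h1
    rw [ha, Finset.mem_filter] at h2
    exact hd y h1.2 h2.2
  have hKe : e ∪ b = K := by
    ext y
    rw [Finset.mem_union, he, hb, Finset.mem_filter, Finset.mem_filter]
    constructor
    · rintro (h | h)
      · exact h.1
      · exact h.2
    · intro h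
      by_cases hy : y ∈ D
      · exact Or.inr ⟨hy, h⟩
      · exact Or.inl ⟨h, hy⟩
  have hed : Disjoint e b := by
    rw [Finset.disjoint_left]
    intro y h1 h2
    rw [he, Finset.mem_filter] at h1
    rw [hb, Finset.mem_filter] at h2
    exact h1.2 h2.1
  have hcU : (D.filter (· ∈ U)).card = b.card + a.card := by
    rw [← Finset.card_union_of_disjoint (Finset.disjoint_left.2 hba)]
    congr 1
    ext y
    rw [hab, Finset.mem_union]
  have hcK : K.card = e.card + b.card := by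
    rw [← Finset.card_union_of_disjoint hed, hKe]
  have h1 : ∑ T ∈ Tab K T₀, cp D Bad U' T =
      (∑ T ∈ Tab K T₀, (((Tab a T).filter Bad).card : ℝ)) / (k : ℝ) ^ a.card := by
    rw [Finset.sum_div]
    refine Finset.sum_congr rfl fun T _ => ?_
    unfold cp
    rw [← ha]
  have h2 : ∑ T ∈ Tab K T₀, (((Tab a T).filter Bad).card : ℝ) =
      (k : ℝ) ^ e.card * ((Tab (D.filter (· ∈ U)) T₀).filter Bad).card := by
    conv_lhs => rw [← hKe, sum_Tab_union hed]
    have h3 : ∀ T ∈ Tab e T₀, ∑ S ∈ Tab b T, (((Tab a S).filter Bad).card : ℝ) =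
        ((Tab (D.filter (· ∈ U)) T₀).filter Bad).card := by
      intro T hT
      have h4 := card_Tab_union' hab hba T Bad
      rw [← Nat.cast_sum, ← h4]
      congr 1
      refine card_filter_congr (D := D) (fun y hy _ => ?_) hloc
      refine mem_Tab.1 hT y ?_
      rw [he, Finset.mem_filter]
      exact fun h => h.2 hy
    rw [Finset.sum_congr rfl h3, Finset.sum_const, card_Tab, nsmul_eq_mul]
    push_cast
    rfl
  rw [h1, h2]
  unfold cp
  rw [hcU, hcK, pow_add, pow_add]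
  field_simp

theorem exp_le_prod {ι : Type*} (J : Finset ι) (x : ι → ℝ) (h0 : ∀ i ∈ J, 0 ≤ x i)
    (h1 : ∀ i ∈ J, x i ≤ 1 / 2) : Real.exp (-(2 * ∑ i ∈ J, x i)) ≤ ∏ i ∈ J, (1 - x i) := by
  have h2 : ∀ i ∈ J, Real.exp (-(2 * x i)) ≤ 1 - x i := by
    intro i hi
    have hx0 := h0 i hi
    have hx1 := h1 i hi
    have h3 : (0 : ℝ) < 1 - x i := by linarith
    have h4 := Real.one_sub_inv_le_log_of_pos h3
    have h5 : -(2 * x i) ≤ 1 - (1 - x i)⁻¹ := by
      rw [← one_div]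
      have h6 : 1 / (1 - x i) ≤ 1 + 2 * x i := by
        rw [div_le_iff₀ h3]
        nlinarith
      linarith
    calc Real.exp (-(2 * x i)) ≤ Real.exp (Real.log (1 - x i)) :=
          Real.exp_le_exp.2 (h5.trans h4)
      _ = _ := Real.exp_log h3
  rw [Finset.mul_sum, ← Finset.sum_neg_distrib, Real.exp_sum]
  exact Finset.prod_le_prod (fun i _ => (Real.exp_pos _).le) h2

theorem sum_biUnion_le2 {α β : Type*} (I : Finset α) (N : α → Finset β) {f : β → ℝ}
    (hf : ∀ v, 0 ≤ f v) : ∑ b ∈ I.biUnion N, f b ≤ ∑ a ∈ I, ∑ b ∈ N a, f b := by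
  induction I using Finset.induction_on with
  | empty => simp
  | @insert a I ha ih =>
    rw [Finset.biUnion_insert, Finset.sum_insert ha]
    have h1 : ∑ b ∈ N a ∪ I.biUnion N, f b ≤
        (∑ b ∈ N a, f b) + ∑ b ∈ I.biUnion N, f b := by
      rw [← Finset.sum_union_inter]
      have := Finset.sum_nonneg (s := N a ∩ I.biUnion N) fun b _ => hf b
      linarith
    linarith

/-- One stage, in a finite cluster. -/
theorem stage_fin {V Q : Type*} (hk : 0 < k) (D : Q → Finset Y) (Bad : Q → (Y → Fin k) → Prop)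
    (hloc : ∀ S T T', (∀ y ∈ D S, T y = T' y) → (Bad S T ↔ Bad S T')) (A : V → Finset Q)
    (sz : Q → ℕ) (hsz : ∀ S, 1 ≤ sz S) {K1 : ℝ} (hK1 : 0 ≤ K1) (lab cov : Q → Finset V)
    (hlab : ∀ v, ∀ S ∈ A v, v ∈ lab S) (hlabc : ∀ v, ∀ S ∈ A v, (lab S).card ≤ sz S)
    (hcovc : ∀ v, ∀ S ∈ A v, ((cov S).card : ℝ) ≤ K1 * sz S)
    (hcov : ∀ v, ∀ S ∈ A v, ∀ v', ∀ S' ∈ A v', ¬ Disjoint (D S) (D S') → ∃ u ∈ cov S, S' ∈ A u)
    {U U' : Set Y} {K : Finset Y} (hKU : ∀ y ∈ K, y ∈ U ∧ y ∉ U') (hUU : ∀ y, y ∈ U' → y ∈ U)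
    (𝒯 : Finset V) (h𝒯 : ∀ v ∈ 𝒯, ∀ S ∈ A v, ∀ y ∈ D S, y ∈ U → y ∉ U' → y ∈ K)
    (T₀ : Y → Fin k) {c0 c1 : Q → ℝ} (hc1 : ∀ S, 0 < c1 S) {Γ K0 ζ0 ζ1 : ℝ} (hΓ : 1 < Γ)
    (hζ0 : 0 ≤ ζ0) (hζ1 : 0 < ζ1) (hK0 : 0 ≤ K0)
    (hnum : ∀ S, (sz S : ℝ) * (Γ ^ sz S * c1 S) ≤ K0 * c0 S)
    (hn1 : K0 * ζ0 / ζ1 ≤ 1 / 2) (hn2 : 2 * (K0 * ζ0 / ζ1) * (1 + K1) ≤ Real.log Γ)
    (hT₀ : ∀ v, ∑ S ∈ A v, c0 S * cp (D S) (Bad S) U T₀ ≤ ζ0) :
    ∃ T ∈ Tab K T₀, ∀ v ∈ 𝒯, ∑ S ∈ A v, c1 S * cp (D S) (Bad S) U' T < ζ1 := by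
  obtain ⟨β, hβ⟩ : ∃ β : ℝ, β = K0 * ζ0 / ζ1 := ⟨_, rfl⟩
  have hβ0 : 0 ≤ β := by rw [hβ]; positivity
  rw [← hβ] at hn1 hn2
  obtain ⟨ψ, hψ⟩ : ∃ ψ : Q → ℝ, ∀ S, ψ S = Γ ^ sz S * c1 S / ζ1 * cp (D S) (Bad S) U T₀ :=
    ⟨_, fun _ => rfl⟩
  have hΓ0 : 0 < Γ := by linarith
  have hψ0 : ∀ S, 0 ≤ ψ S := by
    intro S
    rw [hψ]
    have := cp_nonneg (D S) (Bad S) U T₀
    have := hc1 S
    positivity
  have hψs : ∀ S, (sz S : ℝ) * ψ S ≤ K0 / ζ1 * (c0 S * cp (D S) (Bad S) U T₀) := by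
    intro S
    rw [hψ]
    have h1 := cp_nonneg (D S) (Bad S) U T₀
    have h2 := hnum S
    calc (sz S : ℝ) * (Γ ^ sz S * c1 S / ζ1 * cp (D S) (Bad S) U T₀)
        = ((sz S : ℝ) * (Γ ^ sz S * c1 S)) / ζ1 * cp (D S) (Bad S) U T₀ := by ring
      _ ≤ (K0 * c0 S) / ζ1 * cp (D S) (Bad S) U T₀ :=
          mul_le_mul_of_nonneg_right (div_le_div_of_nonneg_right h2 hζ1.le) h1
      _ = _ := by ring
  have hψA : ∀ v, ∑ S ∈ A v, (sz S : ℝ) * ψ S ≤ β := by
    intro v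
    calc ∑ S ∈ A v, (sz S : ℝ) * ψ S
        ≤ ∑ S ∈ A v, K0 / ζ1 * (c0 S * cp (D S) (Bad S) U T₀) :=
          Finset.sum_le_sum fun S _ => hψs S
      _ = K0 / ζ1 * ∑ S ∈ A v, c0 S * cp (D S) (Bad S) U T₀ := by rw [Finset.mul_sum]
      _ ≤ K0 / ζ1 * ζ0 := mul_le_mul_of_nonneg_left (hT₀ v) (by positivity)
      _ = β := by rw [hβ]; ring
  have hψ1 : ∀ S, ψ S ≤ (sz S : ℝ) * ψ S := by
    intro S
    refine le_mul_of_one_le_left (hψ0 S) ?_
    exact_mod_cast hsz S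
  have hψA1 : ∀ v, ∑ S ∈ A v, ψ S ≤ β := fun v =>
    (Finset.sum_le_sum fun S _ => hψ1 S).trans (hψA v)
  have hψb : ∀ v, ∀ S ∈ A v, ψ S ≤ β := fun v S hS =>
    (Finset.single_le_sum (f := ψ) (fun S _ => hψ0 S) hS).trans (hψA1 v)
  obtain ⟨I, hI⟩ : ∃ I : Finset (V × Q), ∀ a, a ∈ I ↔ a.1 ∈ 𝒯 ∧ a.2 ∈ A a.1 := by
    refine ⟨𝒯.biUnion fun v => (A v).image fun S => (v, S), fun a => ?_⟩
    simp only [Finset.mem_biUnion, Finset.mem_image]
    constructor
    · rintro ⟨v, hv, S, hS, rfl⟩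
      exact ⟨hv, hS⟩
    · rintro ⟨h1, h2⟩
      exact ⟨a.1, h1, a.2, h2, rfl⟩
  obtain ⟨T, hT1, hT2⟩ := soft_lll hk K T₀ I Prod.fst (fun a => D a.2)
    (fun a T => c1 a.2 * cp (D a.2) (Bad a.2) U' T / ζ1)
    (fun a T => by
      have := cp_nonneg (D a.2) (Bad a.2) U' T
      have := hc1 a.2
      positivity)
    (fun a T T' h => by
      beta_reduce
      rw [cp_loc (hloc a.2) U' (fun y hy _ => h y hy)])
    (fun a => min (ψ a.2) (1 / 2)) (fun a => le_min (hψ0 a.2) (by norm_num))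
    (fun a _ => lt_of_le_of_lt (min_le_right _ _) (by norm_num)) (by
      intro a ha
      obtain ⟨ha1, ha2⟩ := (hI a).1 ha
      have hωa : ∀ u ∈ I, min (ψ u.2) (1 / 2) = ψ u.2 := by
        intro u hu
        exact min_eq_left ((hψb u.1 u.2 ((hI u).1 hu).2).trans hn1)
      have htow : ∑ T ∈ Tab K T₀, c1 a.2 * cp (D a.2) (Bad a.2) U' T / ζ1 =
          (ψ a.2 / Γ ^ sz a.2) * (k : ℝ) ^ K.card := by
        have h1 := cp_tower hk (hloc a.2) (U := U) (U' := U') (K := K) (by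
          intro y hy
          constructor
          · intro h
            by_cases hU' : y ∈ U'
            · exact Or.inr hU'
            · exact Or.inl (h𝒯 a.1 ha1 a.2 ha2 y hy h hU')
          · rintro (h | h)
            · exact (hKU y h).1
            · exact hUU y h) (fun y hy => (hKU y hy).2) T₀
        rw [← Finset.sum_div, ← Finset.mul_sum, h1, hψ]
        field_simp
      rw [htow]
      refine mul_le_mul_of_nonneg_right ?_ (by positivity)
      rw [hωa a ha, div_eq_mul_inv]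
      refine mul_le_mul_of_nonneg_left ?_ (hψ0 _)
      suffices main : ∀ J : Finset (V × Q), (∀ u ∈ J, u ∈ I ∧ (u.1 = a.1 ∨
          ¬ Disjoint (D a.2 ∩ K) (D u.2 ∩ K))) →
          (Γ ^ sz a.2)⁻¹ ≤ ∏ u ∈ J, (1 - min (ψ u.2) (1 / 2)) from
        main _ fun u hu => by
          simp only [Finset.mem_filter] at hu
          exact ⟨hu.1, hu.2.2⟩
      intro J hJ
      have hJI : J ⊆ I := fun u hu => (hJ u hu).1
      have h2 := exp_le_prod J (fun u => min (ψ u.2) (1 / 2))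
        (fun u _ => le_min (hψ0 u.2) (by norm_num)) (fun u _ => min_le_right _ _)
      refine le_trans ?_ h2
      have h3 : (Γ ^ sz a.2)⁻¹ = Real.exp (-(sz a.2 * Real.log Γ)) := by
        rw [Real.exp_neg, ← Real.log_pow, Real.exp_log (by positivity)]
      rw [h3, Real.exp_le_exp, neg_le_neg_iff]
      have h4 : ∑ u ∈ J, min (ψ u.2) (1 / 2) = ∑ u ∈ J, ψ u.2 :=
        Finset.sum_congr rfl fun u hu => hωa u (hJI hu)
      rw [h4]
      obtain ⟨J1, hJ1⟩ : ∃ J1 : Finset (V × Q), J1 = I.filter (fun u => u.1 = a.1) := ⟨_, rfl⟩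
      obtain ⟨J2, hJ2⟩ : ∃ J2 : Finset (V × Q), J2 = I.filter (fun u =>
        ¬ Disjoint (D a.2) (D u.2)) := ⟨_, rfl⟩
      have hJ12 : J ⊆ J1 ∪ J2 := by
        intro u hu
        have hu' := hJ u hu
        rw [Finset.mem_union, hJ1, hJ2, Finset.mem_filter, Finset.mem_filter]
        rcases hu'.2 with h | h
        · exact Or.inl ⟨hu'.1, h⟩
        · refine Or.inr ⟨hu'.1, fun hd => h ?_⟩
          exact hd.mono Finset.inter_subset_left Finset.inter_subset_left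
      have h5 : ∑ u ∈ J, ψ u.2 ≤ ∑ u ∈ J1, ψ u.2 + ∑ u ∈ J2, ψ u.2 := by
        refine (Finset.sum_le_sum_of_subset_of_nonneg hJ12 fun u _ _ => hψ0 u.2).trans ?_
        rw [← Finset.sum_union_inter]
        have := Finset.sum_nonneg (s := J1 ∩ J2) fun u _ => hψ0 u.2
        linarith
      have h6 : ∑ u ∈ J1, ψ u.2 ≤ β := by
        have e : ∑ u ∈ J1, ψ u.2 = ∑ S ∈ J1.image Prod.snd, ψ S := by
          rw [Finset.sum_image]
          intro u hu u' hu' h
          rw [Finset.mem_coe, hJ1, Finset.mem_filter] at hu hu'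
          exact Prod.ext (hu.2.trans hu'.2.symm) h
        rw [e]
        refine (Finset.sum_le_sum_of_subset_of_nonneg ?_ fun S _ _ => hψ0 S).trans (hψA1 a.1)
        intro S hS
        obtain ⟨u, hu, rfl⟩ := Finset.mem_image.1 hS
        rw [hJ1, Finset.mem_filter] at hu
        rw [← hu.2]
        exact ((hI u).1 hu.1).2
      have h7 : ∑ u ∈ J2, ψ u.2 ≤ K1 * sz a.2 * β := by
        rw [← Finset.sum_fiberwise_of_maps_to (g := Prod.snd) (t := J2.image Prod.snd)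
          (fun u hu => Finset.mem_image_of_mem _ hu)]
        calc ∑ S ∈ J2.image Prod.snd, ∑ u ∈ J2.filter (fun u => u.2 = S), ψ u.2
            ≤ ∑ S ∈ J2.image Prod.snd, (sz S : ℝ) * ψ S := by
              refine Finset.sum_le_sum fun S hS => ?_
              have e : ∑ u ∈ J2.filter (fun u => u.2 = S), ψ u.2 =
                  ((J2.filter (fun u => u.2 = S)).card : ℝ) * ψ S := by
                rw [← nsmul_eq_mul, ← Finset.sum_const]
                refine Finset.sum_congr rfl fun u hu => ?_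
                rw [(Finset.mem_filter.1 hu).2]
              rw [e]
              refine mul_le_mul_of_nonneg_right ?_ (hψ0 S)
              obtain ⟨u₀, hu₀, hu₀S⟩ := Finset.mem_image.1 hS
              rw [hJ2, Finset.mem_filter] at hu₀
              have h8 := ((hI u₀).1 hu₀.1).2
              rw [hu₀S] at h8
              rw [Nat.cast_le]
              refine le_trans (Finset.card_le_card_of_injOn Prod.fst ?_ ?_) (hlabc _ S h8)
              · intro u hu
                rw [Finset.mem_coe, Finset.mem_filter, hJ2, Finset.mem_filter] at hu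
                have h9 := ((hI u).1 hu.1.1).2
                rw [hu.2] at h9
                exact hlab _ S h9
              · intro u hu u' hu' h
                rw [Finset.mem_coe, Finset.mem_filter] at hu hu'
                exact Prod.ext h (hu.2.trans hu'.2.symm)
          _ ≤ ∑ S ∈ (cov a.2).biUnion A, (sz S : ℝ) * ψ S := by
              refine Finset.sum_le_sum_of_subset_of_nonneg ?_ fun S _ _ =>
                mul_nonneg (Nat.cast_nonneg _) (hψ0 S)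
              intro S hS
              obtain ⟨u, hu, rfl⟩ := Finset.mem_image.1 hS
              rw [hJ2, Finset.mem_filter] at hu
              obtain ⟨u', h8, h9⟩ := hcov a.1 a.2 ha2 u.1 u.2 ((hI u).1 hu.1).2 hu.2
              exact Finset.mem_biUnion.2 ⟨u', h8, h9⟩
          _ ≤ ∑ u ∈ cov a.2, ∑ S ∈ A u, (sz S : ℝ) * ψ S :=
              sum_biUnion_le2 _ _ fun S => mul_nonneg (Nat.cast_nonneg _) (hψ0 S)
          _ ≤ ∑ _u ∈ cov a.2, β := Finset.sum_le_sum fun u _ => hψA u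
          _ = ((cov a.2).card : ℝ) * β := by rw [Finset.sum_const, nsmul_eq_mul]
          _ ≤ K1 * sz a.2 * β := mul_le_mul_of_nonneg_right (hcovc a.1 a.2 ha2) hβ0
      have hs1 : (1 : ℝ) ≤ sz a.2 := by exact_mod_cast hsz a.2
      have h8 : ∑ u ∈ J, ψ u.2 ≤ sz a.2 * (β * (1 + K1)) := by
        have h9 : β ≤ sz a.2 * β := le_mul_of_one_le_left hβ0 hs1
        have h10 : (sz a.2 : ℝ) * (β * (1 + K1)) = sz a.2 * β + K1 * sz a.2 * β := by ring
        rw [h10]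
        linarith
      calc 2 * ∑ u ∈ J, ψ u.2 ≤ 2 * (sz a.2 * (β * (1 + K1))) := by linarith
        _ = sz a.2 * (2 * β * (1 + K1)) := by ring
        _ ≤ sz a.2 * Real.log Γ := mul_le_mul_of_nonneg_left hn2 (by positivity))
  refine ⟨T, hT1, fun v hv => ?_⟩
  have h1 := hT2 v
  have e : ∑ a ∈ I.filter (fun a => a.1 = v), c1 a.2 * cp (D a.2) (Bad a.2) U' T / ζ1 =
      ∑ S ∈ A v, c1 S * cp (D S) (Bad S) U' T / ζ1 := by
    refine Finset.sum_nbij' (fun a => a.2) (fun S => (v, S)) ?_ ?_ ?_ ?_ ?_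
    · intro a ha
      rw [Finset.mem_filter] at ha
      rw [← ha.2]
      exact ((hI a).1 ha.1).2
    · intro S hS
      exact Finset.mem_filter.2 ⟨(hI _).2 ⟨hv, hS⟩, rfl⟩
    · intro a ha
      rw [Finset.mem_filter] at ha
      exact Prod.ext ha.2.symm rfl
    · intro S _
      rfl
    · intro a _
      rfl
  rw [e, ← Finset.sum_div, div_lt_one hζ1] at h1
  exact h1

end

end Pool.Agent.Helper105
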