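import Mathlib
import Pool.Agent.Helper105_Full.Stage

set_option autoImplicit false

namespace Pool.Agent.Helper105

open MeasureTheory Set
open scoped Classical

/-- One phase, from local solvability. -/
theorem onePhaseG {Y V : Type*} [MeasurableSpace Y] [StandardBorelSpace Y] [MeasurableSpace V]
    [StandardBorelSpace V] {k : ℕ} (hk : 0 < k) (D : V → Finset Y)
    (hD : MeasurableSet {p : V × Y | p.2 ∈ D p.1}) (hfin : ∀ y, {v | y ∈ D v}.Finite)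
    (U : Set Y) (hU : MeasurableSet U) (C : Y → Y → Prop) (hC : Equivalence C)
    (hCm : MeasurableSet {p : Y × Y | C p.1 p.2}) (hCf : ∀ y, {z | C y z}.Finite)
    (hCU : ∀ v, ∀ y ∈ D v, ∀ z ∈ D v, y ∈ U → z ∈ U → C y z)
    (Ev : V → (Y → Fin k) → Prop)
    (hloc : ∀ v T T', (∀ y ∈ D v, T y = T' y) → (Ev v T ↔ Ev v T'))
    (hEm : ∀ T, Measurable T → MeasurableSet {v | Ev v T})
    (T₀ : Y → Fin k) (hT₀ : Measurable T₀)
    (hsolve : ∀ K : Finset Y, (∀ y ∈ K, y ∈ U) →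
      (∀ v, (∃ z ∈ K, z ∈ D v) → ∀ y ∈ D v, y ∈ U → y ∈ K) →
      ∃ T ∈ Tab K T₀, ∀ v, (∃ z ∈ K, z ∈ D v) → ¬ Ev v T)
    (h0 : ∀ v, (∀ y ∈ D v, y ∉ U) → ¬ Ev v T₀) :
    ∃ T : Y → Fin k, Measurable T ∧ (∀ y, y ∉ U → T y = T₀ y) ∧ ∀ v, ¬ Ev v T := by
  obtain ⟨h, hh1, hh2⟩ := exists_family (Y := Y) hk
  obtain ⟨TT, hTT⟩ : ∃ TT : ℕ → Y → Fin k, ∀ j y, TT j y = if y ∈ U then h j y else T₀ y :=
    ⟨_, fun _ _ => rfl⟩
  have hTTm : ∀ j, Measurable (TT j) := by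
    intro j
    have : TT j = fun y => if y ∈ U then h j y else T₀ y := funext (hTT j)
    rw [this]
    exact Measurable.ite hU (hh1 j) hT₀
  obtain ⟨Good, hGood⟩ : ∃ Good : ℕ → Y → Prop, ∀ j y, Good j y ↔
      ∀ v z, z ∈ D v → z ∈ U → C y z → ¬ Ev v (TT j) := ⟨_, fun _ _ => Iff.rfl⟩
  have hex : ∀ y, ∃ j, Good j y := by
    intro y
    obtain ⟨K, hK⟩ : ∃ K : Finset Y, ∀ z, z ∈ K ↔ C y z ∧ z ∈ U :=
      ⟨(hCf y).toFinset.filter (· ∈ U), fun z => by simp⟩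
    have hsub : ∀ v, (∃ z ∈ K, z ∈ D v) → ∀ y' ∈ D v, y' ∈ U → y' ∈ K := by
      rintro v ⟨z, hz1, hz2⟩ y' hy' hyU
      rw [hK] at hz1 ⊢
      exact ⟨hC.trans hz1.1 (hCU v z hz2 y' hy' hz1.2 hyU), hyU⟩
    obtain ⟨T, hT1, hT2⟩ := hsolve K (fun y' hy' => ((hK y').1 hy').2) hsub
    obtain ⟨j, hj⟩ := hh2 K T
    refine ⟨j, (hGood j y).2 fun v z hz1 hz2 hz3 => ?_⟩
    have hvI : ∃ z ∈ K, z ∈ D v := ⟨z, (hK z).2 ⟨hz3, hz2⟩, hz1⟩
    rw [hloc v (TT j) T]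
    · exact hT2 v hvI
    · intro y' hy'
      rw [hTT]
      split_ifs with hyU
      · exact hj y' (hsub v hvI y' hy' hyU)
      · exact (mem_Tab.1 hT1 y' fun hK' => hyU ((hK y').1 hK').2).symm
  have hGm : ∀ j, MeasurableSet {y | Good j y} := by
    intro j
    have e : {y | Good j y} = {y | ∃ q : V × Y, (y, q) ∈ {r : Y × (V × Y) |
        (r.2.2 ∈ D r.2.1 ∧ r.2.2 ∈ U) ∧ (C r.1 r.2.2 ∧ Ev r.2.1 (TT j))}}ᶜ := by
      ext y
      simp only [mem_ofPred_eq, mem_compl_iff, not_exists, hGood, Prod.forall]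
      constructor
      · intro h1 v z h2
        exact h1 v z h2.1.1 h2.1.2 h2.2.1 h2.2.2
      · intro h1 v z h2 h3 h4 h5
        exact h1 v z ⟨⟨h2, h3⟩, h4, h5⟩
    rw [e]
    refine MeasurableSet.compl (proj ?_ ?_)
    · refine MeasurableSet.inter (MeasurableSet.inter ?_ ?_) (MeasurableSet.inter ?_ ?_)
      · exact measurable_snd hD
      · exact (measurable_snd.comp measurable_snd) hU
      · exact (measurable_fst.prodMk (measurable_snd.comp measurable_snd)) hCm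
      · exact (measurable_fst.comp measurable_snd) (hEm _ (hTTm j))
    · intro y
      have hf : ({z | C y z} ×ˢ (⋃ z ∈ {z | C y z}, {v | z ∈ D v})).Finite :=
        (hCf y).prod ((hCf y).biUnion fun z _ => hfin z)
      refine ((hf.image Prod.swap).subset ?_).countable
      rintro ⟨v, z⟩ ⟨⟨h1, h2⟩, h3, h4⟩
      refine ⟨(z, v), ⟨h3, ?_⟩, rfl⟩
      simp only [mem_iUnion]
      exact ⟨z, h3, h1⟩
  have hjm := measurable_find hex hGm
  obtain ⟨jj, hjj⟩ : ∃ jj : Y → ℕ, jj = fun y => Nat.find (hex y) := ⟨_, rfl⟩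
  rw [← hjj] at hjm
  have hj1 : ∀ y, Good (jj y) y := by
    intro y; rw [hjj]; exact Nat.find_spec (hex y)
  have hj2 : ∀ y j, Good j y → jj y ≤ j := by
    intro y j hj; rw [hjj]; exact Nat.find_min' (hex y) hj
  have hGC : ∀ j y z, C y z → Good j y → Good j z := by
    intro j y z hyz hg
    rw [hGood] at hg ⊢
    intro v w h1 h2 h3
    exact hg v w h1 h2 (hC.trans hyz h3)
  have hjC : ∀ y z, C y z → jj y = jj z := by
    intro y z hyz
    exact le_antisymm (hj2 y _ (hGC _ _ _ (hC.symm hyz) (hj1 z)))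
      (hj2 z _ (hGC _ _ _ hyz (hj1 y)))
  refine ⟨fun y => TT (jj y) y, ?_, ?_, ?_⟩
  · exact measurable_glue (fun j : ℕ => {y | jj y = j})
      (fun j => measurableSet_eq_fun hjm measurable_const) (fun y => ⟨jj y, rfl⟩)
      (fun j => TT j) hTTm _ (by
        rintro j y hy
        simp only [mem_ofPred_eq] at hy
        simp only [hy])
  · intro y hy
    simp only [hTT, hy, if_false]
  · intro v
    by_cases hv : ∃ z ∈ D v, z ∈ U
    · obtain ⟨z, hz1, hz2⟩ := hv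
      rw [hloc v _ (TT (jj z))]
      · exact (hGood _ _).1 (hj1 z) v z hz1 hz2 (hC.refl z)
      · intro y hy
        beta_reduce
        by_cases hyU : y ∈ U
        · rw [hjC y z (hCU v y hy z hz1 hyU hz2)]
        · simp only [hTT, hyU, if_false]
    · push Not at hv
      rw [hloc v _ T₀]
      · exact h0 v hv
      · intro y hy
        simp only [hTT, hv y hy, if_false]

section
variable {Y V Q : Type*} [MeasurableSpace Y] [StandardBorelSpace Y] [MeasurableSpace V]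
    [StandardBorelSpace V] [MeasurableSpace Q] [StandardBorelSpace Q] {k : ℕ}

theorem cp_meas (hk : 0 < k) {D : Q → Finset Y}
    (hD : MeasurableSet {p : Q × Y | p.2 ∈ D p.1}) {Bad : Q → (Y → Fin k) → Prop}
    (hloc : ∀ S T T', (∀ y ∈ D S, T y = T' y) → (Bad S T ↔ Bad S T'))
    (hBm : ∀ T, Measurable T → MeasurableSet {S | Bad S T}) {U : Set Y} (hU : MeasurableSet U)
    {T : Y → Fin k} (hT : Measurable T) : Measurable fun S => cp (D S) (Bad S) U T := by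
  unfold cp
  have h1 := count_meas hk D hD U hU Bad hloc hBm T hT
  refine ((measurable_of_countable (fun n : ℕ => (n : ℝ))).comp h1).div ?_
  have e : (fun S => (k : ℝ) ^ ((D S).filter (· ∈ U)).card) =
      fun S => ∏ y ∈ D S, if y ∈ U then (k : ℝ) else 1 := by
    funext S
    rw [Finset.prod_ite]
    simp
  rw [e]
  refine measurable_fprod D hD (fun _ y => if y ∈ U then (k : ℝ) else 1) ?_
  exact Measurable.ite (measurable_snd hU) measurable_const measurable_const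

/-- One stage, for a Borel family with finite clusters. -/
theorem stage (hk : 0 < k) {D : Q → Finset Y}
    (hD : MeasurableSet {p : Q × Y | p.2 ∈ D p.1}) {Bad : Q → (Y → Fin k) → Prop}
    (hloc : ∀ S T T', (∀ y ∈ D S, T y = T' y) → (Bad S T ↔ Bad S T'))
    (hBm : ∀ T, Measurable T → MeasurableSet {S | Bad S T})
    {A : V → Finset Q} (hA : MeasurableSet {p : V × Q | p.2 ∈ A p.1})
    {DV : V → Finset Y} (hDV : MeasurableSet {p : V × Y | p.2 ∈ DV p.1})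
    (hfin : ∀ y, {v | y ∈ DV v}.Finite) (hAD : ∀ v, ∀ S ∈ A v, D S ⊆ DV v)
    (sz : Q → ℕ) (hsz : ∀ S, 1 ≤ sz S) {K1 : ℝ} (hK1 : 0 ≤ K1) (lab cov : Q → Finset V)
    (hlab : ∀ v, ∀ S ∈ A v, v ∈ lab S) (hlabc : ∀ v, ∀ S ∈ A v, (lab S).card ≤ sz S)
    (hcovc : ∀ v, ∀ S ∈ A v, ((cov S).card : ℝ) ≤ K1 * sz S)
    (hcov : ∀ v, ∀ S ∈ A v, ∀ v', ∀ S' ∈ A v', ¬ Disjoint (D S) (D S') → ∃ u ∈ cov S, S' ∈ A u)
    {U U' W : Set Y} (hU' : MeasurableSet U') (hW : MeasurableSet W)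
    (hUW : ∀ y, y ∈ U ↔ y ∈ W ∨ y ∈ U') (hdis : ∀ y ∈ W, y ∉ U')
    (C : Y → Y → Prop) (hC : Equivalence C)
    (hCm : MeasurableSet {p : Y × Y | C p.1 p.2}) (hCf : ∀ y, {z | C y z}.Finite)
    (hCU : ∀ v, ∀ y ∈ DV v, ∀ z ∈ DV v, y ∈ W → z ∈ W → C y z)
    (T₀ : Y → Fin k) (hT₀m : Measurable T₀) {c0 c1 : Q → ℝ} (hc1 : ∀ S, 0 < c1 S)
    (hc1m : Measurable c1) {Γ K0 ζ0 ζ1 : ℝ} (hΓ : 1 < Γ)
    (hζ0 : 0 ≤ ζ0) (hζ1 : 0 < ζ1) (hK0 : 0 ≤ K0)
    (hnum : ∀ S, (sz S : ℝ) * (Γ ^ sz S * c1 S) ≤ K0 * c0 S)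
    (hn1 : K0 * ζ0 / ζ1 ≤ 1 / 2) (hn2 : 2 * (K0 * ζ0 / ζ1) * (1 + K1) ≤ Real.log Γ)
    (hT₀ : ∀ v, ∑ S ∈ A v, c0 S * cp (D S) (Bad S) U T₀ ≤ ζ0) :
    ∃ T : Y → Fin k, Measurable T ∧ ∀ v, ∑ S ∈ A v, c1 S * cp (D S) (Bad S) U' T < ζ1 := by
  obtain ⟨Ev, hEv⟩ : ∃ Ev : V → (Y → Fin k) → Prop, ∀ v T, Ev v T ↔
      ζ1 ≤ ∑ S ∈ A v, c1 S * cp (D S) (Bad S) U' T := ⟨_, fun _ _ => Iff.rfl⟩
  obtain ⟨T, hT, -, hT'⟩ := onePhaseG hk DV hDV hfin W hW C hC hCm hCf hCU Ev (by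
    intro v T T' h
    rw [hEv, hEv]
    have : ∑ S ∈ A v, c1 S * cp (D S) (Bad S) U' T =
        ∑ S ∈ A v, c1 S * cp (D S) (Bad S) U' T' :=
      Finset.sum_congr rfl fun S hS => by
        rw [cp_loc (hloc S) U' fun y hy _ => h y (hAD v S hS hy)]
    rw [this]) (by
    intro T hT
    have e : {v | Ev v T} = {v | ζ1 ≤ ∑ S ∈ A v, c1 S * cp (D S) (Bad S) U' T} := by
      ext v; exact hEv v T
    rw [e]
    refine measurableSet_le measurable_const ?_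
    refine measurable_fsum A hA (fun _ S => c1 S * cp (D S) (Bad S) U' T) ?_
    exact (hc1m.comp measurable_snd).mul ((cp_meas hk hD hloc hBm hU' hT).comp measurable_snd))
    T₀ hT₀m (by
    intro K hKW hKs
    obtain ⟨𝒯, h𝒯⟩ : ∃ 𝒯 : Finset V, ∀ v, v ∈ 𝒯 ↔ ∃ z ∈ K, z ∈ DV v :=
      ⟨K.biUnion fun z => (hfin z).toFinset, fun v => by simp⟩
    obtain ⟨T, hT1, hT2⟩ := stage_fin hk D Bad hloc A sz hsz hK1 lab cov hlab hlabc hcovc hcov
      (U := U) (U' := U') (K := K)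
      (fun y hy => ⟨(hUW y).2 (Or.inl (hKW y hy)), hdis y (hKW y hy)⟩)
      (fun y hy => (hUW y).2 (Or.inr hy)) 𝒯
      (fun v hv S hS y hy hyU hyU' => by
        rcases (hUW y).1 hyU with h | h
        · exact hKs v ((h𝒯 v).1 hv) y (hAD v S hS hy) h
        · exact absurd h hyU')
      T₀ hc1 hΓ hζ0 hζ1 hK0 hnum hn1 hn2 hT₀
    refine ⟨T, hT1, fun v hv => ?_⟩
    rw [hEv, not_le]
    exact hT2 v ((h𝒯 v).2 hv)) (by
    intro v hv
    rw [hEv, not_le]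
    have h1 : ∀ S ∈ A v, c1 S * cp (D S) (Bad S) U' T₀ ≤
        K0 * (c0 S * cp (D S) (Bad S) U T₀) := by
      intro S hS
      have h2 : cp (D S) (Bad S) U' T₀ = cp (D S) (Bad S) U T₀ := by
        unfold cp
        have : (D S).filter (· ∈ U') = (D S).filter (· ∈ U) := by
          apply Finset.filter_congr
          intro y hy
          rw [hUW]
          have := hv y (hAD v S hS hy)
          tauto
        rw [this]
      have h3 := hnum S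
      have h4 : c1 S ≤ (sz S : ℝ) * (Γ ^ sz S * c1 S) := by
        have h5 : (1 : ℝ) ≤ sz S := by exact_mod_cast hsz S
        have h6 : (1 : ℝ) ≤ Γ ^ sz S := one_le_pow₀ hΓ.le
        have h7 : c1 S ≤ Γ ^ sz S * c1 S := le_mul_of_one_le_left (hc1 S).le h6
        have h8 : 0 ≤ Γ ^ sz S * c1 S := le_trans (hc1 S).le h7
        exact h7.trans (le_mul_of_one_le_left h8 h5)
      rw [h2, ← mul_assoc]
      exact mul_le_mul_of_nonneg_right (h4.trans h3) (cp_nonneg _ _ _ _)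
    have h2 : ∑ S ∈ A v, c1 S * cp (D S) (Bad S) U' T₀ ≤ K0 * ζ0 := by
      calc _ ≤ ∑ S ∈ A v, K0 * (c0 S * cp (D S) (Bad S) U T₀) := Finset.sum_le_sum h1
        _ = K0 * ∑ S ∈ A v, c0 S * cp (D S) (Bad S) U T₀ := by rw [Finset.mul_sum]
        _ ≤ _ := mul_le_mul_of_nonneg_left (hT₀ v) hK0
    have h3 : K0 * ζ0 ≤ ζ1 / 2 := by
      rw [div_le_iff₀ hζ1] at hn1
      linarith
    linarith)
  refine ⟨T, hT, fun v => ?_⟩
  have := hT' v
  rwa [hEv, not_le] at this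

end

end Pool.Agent.Helper105
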