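import Mathlib
import Pool.Agent.Helper105_Sub.Lay

set_option autoImplicit false

namespace Pool.Agent.Helper105

open scoped Classical

section gen
variable {V : Type*}

theorem one_le_prodR {J : Finset V} {f : V → ℝ} (hf : ∀ v ∈ J, 1 ≤ f v) : 1 ≤ ∏ b ∈ J, f b := by
  induction J using Finset.induction_on with
  | empty => simp
  | @insert a J ha ih =>
    rw [Finset.prod_insert ha]
    exact one_le_mul_of_one_le_of_one_le (hf a (by simp)) (ih fun v hv => hf v (by simp [hv]))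

theorem prod_biUnion_le' {I : Finset V} {Nb : V → Finset V} {f : V → ℝ} (hf : ∀ v, 1 ≤ f v) :
    ∏ b ∈ I.biUnion Nb, f b ≤ ∏ a ∈ I, ∏ b ∈ Nb a, f b := by
  induction I using Finset.induction_on with
  | empty => simp
  | @insert a I ha ih =>
    rw [Finset.biUnion_insert, Finset.prod_insert ha]
    have h1 : ∏ b ∈ Nb a ∪ I.biUnion Nb, f b ≤
        (∏ b ∈ Nb a, f b) * ∏ b ∈ I.biUnion Nb, f b := by
      rw [← Finset.prod_union_inter]
      refine le_mul_of_one_le_right (Finset.prod_nonneg fun b _ => by linarith [hf b]) ?_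
      exact one_le_prodR fun b _ => hf b
    refine h1.trans (mul_le_mul_of_nonneg_left ih (Finset.prod_nonneg fun b _ => by
      linarith [hf b]))

theorem sum_biUnion_le' {I : Finset V} {Nb : V → Finset V} {f : V → ℝ} (hf : ∀ v, 0 ≤ f v) :
    ∑ b ∈ I.biUnion Nb, f b ≤ ∑ a ∈ I, ∑ b ∈ Nb a, f b := by
  induction I using Finset.induction_on with
  | empty => simp
  | @insert a I ha ih =>
    rw [Finset.biUnion_insert, Finset.sum_insert ha]
    have h1 : ∑ b ∈ Nb a ∪ I.biUnion Nb, f b ≤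
        (∑ b ∈ Nb a, f b) + ∑ b ∈ I.biUnion Nb, f b := by
      rw [← Finset.sum_union_inter]
      have := Finset.sum_nonneg (s := Nb a ∩ I.biUnion Nb) fun b _ => hf b
      linarith
    linarith

theorem sum_powerset_mark (J : Finset V) (s ρ : V → ℝ) (hs : ∀ v, 0 ≤ s v) :
    ∑ t ∈ J.powerset, (∏ a ∈ t, s a) * ∑ a ∈ t, ρ a =
      (∏ a ∈ J, (1 + s a)) * ∑ a ∈ J, ρ a * s a / (1 + s a) := by
  induction J using Finset.induction_on with
  | empty => simp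
  | @insert b J hb ih =>
    rw [Finset.sum_powerset_insert hb, ih, Finset.prod_insert hb, Finset.sum_insert hb]
    have h1 : ∑ t ∈ J.powerset, (∏ a ∈ insert b t, s a) * ∑ a ∈ insert b t, ρ a =
        s b * ρ b * ∑ t ∈ J.powerset, ∏ a ∈ t, s a +
        s b * ∑ t ∈ J.powerset, (∏ a ∈ t, s a) * ∑ a ∈ t, ρ a := by
      rw [Finset.mul_sum, Finset.mul_sum, ← Finset.sum_add_distrib]
      refine Finset.sum_congr rfl fun t ht => ?_
      have hbt : b ∉ t := fun h => hb (Finset.mem_powerset.1 ht h)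
      rw [Finset.prod_insert hbt, Finset.sum_insert hbt]
      ring
    rw [h1, ih, ← Finset.prod_one_add]
    have h2 : (1 : ℝ) + s b ≠ 0 := by have := hs b; linarith
    field_simp
    ring

end gen

section
variable {X V : Type*} {k : ℕ} {dm : V → Finset X} {viol : V → (X → Fin k) → Prop}

/-- the conditions on the families of layered structures that we sum over. -/
def Fam (dm : V → Finset X) (𝓑 : Set V) (h : ℕ) (I : Finset V)
    (𝓢 : Finset (Finset (ℕ × V))) : Prop :=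
  (∀ S ∈ 𝓢, ∀ u, (0, u) ∈ S ↔ u ∈ I) ∧ (∀ S ∈ 𝓢, ∀ q ∈ S, q.1 ≤ h) ∧
    (∀ S ∈ 𝓢, ∀ q ∈ S, q.2 ∈ 𝓑) ∧
    ∀ S ∈ 𝓢, ∀ j u, (j + 1, u) ∈ S → ∃ u', (j, u') ∈ S ∧ meets dm u u'

theorem fam_filter {𝓑 : Set V} {h : ℕ} {I : Finset V} {𝓢 : Finset (Finset (ℕ × V))}
    (hF : Fam dm 𝓑 h I 𝓢) (P : Finset (ℕ × V) → Prop) : Fam dm 𝓑 h I (𝓢.filter P) :=
  ⟨fun S hS => hF.1 S (Finset.mem_filter.1 hS).1, fun S hS => hF.2.1 S (Finset.mem_filter.1 hS).1,
    fun S hS => hF.2.2.1 S (Finset.mem_filter.1 hS).1,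
    fun S hS => hF.2.2.2 S (Finset.mem_filter.1 hS).1⟩

/-- one layer is removed. -/
theorem step_bound {𝓑 : Set V} {Nb : V → Finset V}
    (hNb : ∀ a ∈ 𝓑, ∀ b, b ∈ Nb a ↔ b ∈ 𝓑 ∧ meets dm b a) {w : V → ℝ} (hw : ∀ v, 0 ≤ w v)
    {h : ℕ} (G : Finset (ℕ × V) → ℝ) (B : Finset V → ℝ) (hB0 : ∀ t, 0 ≤ B t)
    (hB : ∀ t : Finset V, (∀ v ∈ t, v ∈ 𝓑) → ∀ 𝓢, Fam dm 𝓑 h t 𝓢 →
      ∑ S ∈ 𝓢, (∏ q ∈ S, w q.2) * G S ≤ B t)
    {I : Finset V} (hI : ∀ v ∈ I, v ∈ 𝓑) {𝓢 : Finset (Finset (ℕ × V))}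
    (hF : Fam dm 𝓑 (h + 1) I 𝓢) :
    ∑ S ∈ 𝓢, (∏ q ∈ S, w q.2) * G (dn S) ≤
      (∏ a ∈ I, w a) * ∑ t ∈ (I.biUnion Nb).powerset, B t := by
  obtain ⟨h1, h2, h3, h4⟩ := hF
  obtain ⟨J, hJ⟩ : ∃ J : Finset V, J = I.biUnion Nb := ⟨_, rfl⟩
  obtain ⟨top, htop⟩ : ∃ top : Finset (ℕ × V) → Finset V, ∀ S u, u ∈ top S ↔ (1, u) ∈ S :=
    ⟨fun S => (S.filter (fun q => q.1 = 1)).image Prod.snd, fun S u => by
      simp only [Finset.mem_image, Finset.mem_filter, Prod.exists]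
      constructor
      · rintro ⟨a, b, ⟨h1, rfl⟩, rfl⟩; exact h1
      · intro h; exact ⟨1, u, ⟨h, rfl⟩, rfl⟩⟩
  have hmaps : ∀ S ∈ 𝓢, top S ∈ J.powerset := by
    intro S hS
    rw [Finset.mem_powerset]
    intro u hu
    rw [htop] at hu
    obtain ⟨u', h5, h6⟩ := h4 S hS 0 u hu
    have h7 := (h1 S hS u').1 h5
    rw [hJ, Finset.mem_biUnion]
    exact ⟨u', h7, (hNb u' (hI u' h7) u).2 ⟨h3 S hS _ hu, h6⟩⟩
  rw [← hJ, ← Finset.sum_fiberwise_of_maps_to hmaps, Finset.mul_sum]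
  refine Finset.sum_le_sum fun t _ => ?_
  by_cases hemp : 𝓢.filter (fun S => top S = t) = ∅
  · rw [hemp, Finset.sum_empty]
    exact mul_nonneg (Finset.prod_nonneg fun a _ => hw a) (hB0 t)
  have htB : ∀ v ∈ t, v ∈ 𝓑 := by
    obtain ⟨S, hS⟩ := Finset.nonempty_iff_ne_empty.2 hemp
    rw [Finset.mem_filter] at hS
    intro v hv
    rw [← hS.2, htop] at hv
    exact h3 S hS.1 _ hv
  have hinj : Set.InjOn dn ((𝓢.filter (fun S => top S = t) : Finset _) :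
      Set (Finset (ℕ × V))) := by
    intro S hS S' hS' hdn
    simp only [Finset.coe_filter, Set.mem_ofPred_eq] at hS hS'
    ext ⟨j, u⟩
    rcases j with _ | j
    · rw [h1 S hS.1, h1 S' hS'.1]
    · rw [← mem_dn, ← mem_dn, hdn]
  have hprod : ∀ S ∈ 𝓢, ∏ q ∈ S, w q.2 = (∏ a ∈ I, w a) * ∏ q ∈ dn S, w q.2 := by
    intro S hS
    have e1 : S.filter (fun q => q.1 = 0) = I.image (fun u => (0, u)) := by
      ext ⟨j, u⟩
      simp only [Finset.mem_filter, Finset.mem_image, Prod.mk.injEq]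
      constructor
      · rintro ⟨h5, rfl⟩
        exact ⟨u, (h1 S hS u).1 h5, rfl, rfl⟩
      · rintro ⟨u', h5, rfl, rfl⟩
        exact ⟨(h1 S hS u').2 h5, rfl⟩
    rw [← Finset.prod_filter_mul_prod_filter_not S (fun q => q.1 = 0), e1,
      Finset.prod_image (by intro x _ y _ h; simpa using h), dn, Finset.prod_image]
    rintro ⟨i, u⟩ h5 ⟨j, w'⟩ h6 h7
    simp only [Finset.coe_filter, Set.mem_ofPred_eq, Prod.mk.injEq] at h5 h6 h7 ⊢
    exact ⟨by omega, h7.2⟩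
  have e1 : ∑ S ∈ 𝓢.filter (fun S => top S = t), (∏ q ∈ S, w q.2) * G (dn S) =
      (∏ a ∈ I, w a) * ∑ S' ∈ (𝓢.filter (fun S => top S = t)).image dn,
        (∏ q ∈ S', w q.2) * G S' := by
    rw [Finset.sum_image hinj, Finset.mul_sum]
    refine Finset.sum_congr rfl fun S hS => ?_
    rw [Finset.mem_filter] at hS
    rw [hprod S hS.1, mul_assoc]
  rw [e1]
  refine mul_le_mul_of_nonneg_left (hB t htB _ ⟨?_, ?_, ?_, ?_⟩)
    (Finset.prod_nonneg fun a _ => hw a)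
  · intro S' hS' u
    rw [Finset.mem_image] at hS'
    obtain ⟨S, hS, rfl⟩ := hS'
    rw [Finset.mem_filter] at hS
    rw [mem_dn, ← hS.2, htop]
  · rintro S' hS' ⟨j, u⟩ hq
    rw [Finset.mem_image] at hS'
    obtain ⟨S, hS, rfl⟩ := hS'
    rw [Finset.mem_filter] at hS
    rw [mem_dn] at hq
    have := h2 S hS.1 _ hq
    simpa using this
  · rintro S' hS' ⟨j, u⟩ hq
    rw [Finset.mem_image] at hS'
    obtain ⟨S, hS, rfl⟩ := hS'
    rw [Finset.mem_filter] at hS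
    rw [mem_dn] at hq
    exact h3 S hS.1 (j + 1, u) hq
  · intro S' hS' j u hu
    rw [Finset.mem_image] at hS'
    obtain ⟨S, hS, rfl⟩ := hS'
    rw [Finset.mem_filter] at hS
    rw [mem_dn] at hu
    obtain ⟨u', h5, h6⟩ := h4 S hS.1 (j + 1) u hu
    exact ⟨u', mem_dn.2 h5, h6⟩

theorem fam_zero {𝓑 : Set V} {I : Finset V} {𝓢 : Finset (Finset (ℕ × V))}
    (hF : Fam dm 𝓑 0 I 𝓢) {w : V → ℝ} (hw : ∀ v, 0 ≤ w v) :
    ∑ S ∈ 𝓢, ∏ q ∈ S, w q.2 ≤ ∏ a ∈ I, w a := by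
  obtain ⟨h1, h2, -, -⟩ := hF
  have hS : ∀ S ∈ 𝓢, S = I.image (fun u => (0, u)) := by
    intro S hS
    ext ⟨j, u⟩
    simp only [Finset.mem_image, Prod.mk.injEq]
    constructor
    · intro h
      have : j = 0 := by
        have := h2 S hS _ h
        simpa using this
      subst this
      exact ⟨u, (h1 S hS u).1 h, rfl, rfl⟩
    · rintro ⟨u', h, rfl, rfl⟩
      exact (h1 S hS u').2 h
  have hsub : 𝓢 ⊆ {I.image (fun u => (0, u))} := by
    intro S hS'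
    rw [Finset.mem_singleton]
    exact hS S hS'
  calc ∑ S ∈ 𝓢, ∏ q ∈ S, w q.2 ≤ ∑ S ∈ {I.image (fun u => ((0 : ℕ), u))}, ∏ q ∈ S, w q.2 :=
        Finset.sum_le_sum_of_subset_of_nonneg hsub fun _ _ _ =>
          Finset.prod_nonneg fun q _ => hw q.2
    _ = ∏ a ∈ I, w a := by
        rw [Finset.sum_singleton, Finset.prod_image]
        intro x _ y _ h
        simpa using h

/-- the weighted count of layered structures with a given top layer. -/
theorem wsum {𝓑 : Set V} {Nb : V → Finset V}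
    (hNb : ∀ a ∈ 𝓑, ∀ b, b ∈ Nb a ↔ b ∈ 𝓑 ∧ meets dm b a) {w s : V → ℝ} (hw : ∀ v, 0 ≤ w v)
    (hs : ∀ v, 0 ≤ s v) (hws : ∀ a ∈ 𝓑, w a * ∏ b ∈ Nb a, (1 + s b) ≤ s a) (h : ℕ)
    {I : Finset V} (hI : ∀ v ∈ I, v ∈ 𝓑) {𝓢 : Finset (Finset (ℕ × V))} (hF : Fam dm 𝓑 h I 𝓢) :
    ∑ S ∈ 𝓢, ∏ q ∈ S, w q.2 ≤ ∏ a ∈ I, s a := by
  have hws' : ∀ a ∈ 𝓑, w a ≤ s a := by
    intro a ha
    refine le_trans (le_mul_of_one_le_right (hw a) ?_) (hws a ha)
    exact one_le_prodR fun b _ => by linarith [hs b]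
  induction h generalizing I 𝓢 with
  | zero =>
    refine (fam_zero hF hw).trans ?_
    exact Finset.prod_le_prod (fun a _ => hw a) fun a ha => hws' a (hI a ha)
  | succ h ih =>
    have h1 := step_bound hNb hw (h := h) (fun _ => 1) (fun t => ∏ a ∈ t, s a)
      (fun t => Finset.prod_nonneg fun a _ => hs a) (by
        intro t ht 𝓢' h𝓢'
        simp only [mul_one]
        exact ih ht h𝓢') hI hF
    simp only [mul_one] at h1
    refine h1.trans ?_
    rw [← Finset.prod_one_add]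
    calc (∏ a ∈ I, w a) * ∏ b ∈ I.biUnion Nb, (1 + s b)
        ≤ (∏ a ∈ I, w a) * ∏ a ∈ I, ∏ b ∈ Nb a, (1 + s b) :=
          mul_le_mul_of_nonneg_left (prod_biUnion_le' fun v => by linarith [hs v])
            (Finset.prod_nonneg fun a _ => hw a)
      _ = ∏ a ∈ I, (w a * ∏ b ∈ Nb a, (1 + s b)) := by rw [Finset.prod_mul_distrib]
      _ ≤ ∏ a ∈ I, s a := by
          refine Finset.prod_le_prod (fun a _ => ?_) fun a ha => hws a (hI a ha)
          exact mul_nonneg (hw a) (Finset.prod_nonneg fun b _ => by linarith [hs b])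

/-- the weights of the marked sums. -/
noncomputable def rho (Nb : V → Finset V) (s : V → ℝ) (v₀ : V) : ℕ → V → ℝ
  | 0 => fun a => if a = v₀ then 1 else 0
  | j + 1 => fun a => ∑ b ∈ Nb a, rho Nb s v₀ j b * s b / (1 + s b)

theorem rho_nonneg {Nb : V → Finset V} {s : V → ℝ} (hs : ∀ v, 0 ≤ s v) (v₀ : V) (j : ℕ) (a : V) :
    0 ≤ rho Nb s v₀ j a := by
  induction j generalizing a with
  | zero => simp only [rho]; split_ifs <;> norm_num
  | succ j ih =>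
    simp only [rho]
    refine Finset.sum_nonneg fun b _ => ?_
    have := hs b
    exact div_nonneg (mul_nonneg (ih b) (hs b)) (by linarith)

/-- marked sums. -/
theorem wsum_mark {𝓑 : Set V} {Nb : V → Finset V}
    (hNb : ∀ a ∈ 𝓑, ∀ b, b ∈ Nb a ↔ b ∈ 𝓑 ∧ meets dm b a) {w s : V → ℝ} (hw : ∀ v, 0 ≤ w v)
    (hs : ∀ v, 0 ≤ s v) (hws : ∀ a ∈ 𝓑, w a * ∏ b ∈ Nb a, (1 + s b) ≤ s a) (v₀ : V) (j h : ℕ)
    {I : Finset V} (hI : ∀ v ∈ I, v ∈ 𝓑) {𝓢 : Finset (Finset (ℕ × V))} (hF : Fam dm 𝓑 h I 𝓢) :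
    ∑ S ∈ 𝓢, (∏ q ∈ S, w q.2) * (if (j, v₀) ∈ S then 1 else 0) ≤
      (∏ a ∈ I, s a) * ∑ a ∈ I, rho Nb s v₀ j a := by
  have hs0 : ∀ I : Finset V, 0 ≤ ∏ a ∈ I, s a := fun I => Finset.prod_nonneg fun a _ => hs a
  have hr0 : ∀ j (I : Finset V), 0 ≤ ∑ a ∈ I, rho Nb s v₀ j a :=
    fun j I => Finset.sum_nonneg fun a _ => rho_nonneg hs v₀ j a
  induction j generalizing h I 𝓢 with
  | zero =>
    by_cases hv : v₀ ∈ I
    · have h1 : ∑ S ∈ 𝓢, (∏ q ∈ S, w q.2) * (if ((0 : ℕ), v₀) ∈ S then (1 : ℝ) else 0) =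
          ∑ S ∈ 𝓢, ∏ q ∈ S, w q.2 := by
        refine Finset.sum_congr rfl fun S hS => ?_
        rw [if_pos ((hF.1 S hS v₀).2 hv), mul_one]
      rw [h1]
      refine (wsum hNb hw hs hws h hI hF).trans (le_mul_of_one_le_right (hs0 I) ?_)
      have h2 := Finset.single_le_sum (f := fun a => rho Nb s v₀ 0 a)
        (fun a _ => rho_nonneg hs v₀ 0 a) hv
      simpa [rho] using h2
    · have h1 : ∑ S ∈ 𝓢, (∏ q ∈ S, w q.2) * (if ((0 : ℕ), v₀) ∈ S then (1 : ℝ) else 0) = 0 := by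
        refine Finset.sum_eq_zero fun S hS => ?_
        rw [if_neg (fun h => hv ((hF.1 S hS v₀).1 h)), mul_zero]
      rw [h1]
      exact mul_nonneg (hs0 I) (hr0 0 I)
  | succ j ih =>
    rcases h with _ | h
    · have h1 : ∑ S ∈ 𝓢, (∏ q ∈ S, w q.2) * (if (j + 1, v₀) ∈ S then (1 : ℝ) else 0) = 0 := by
        refine Finset.sum_eq_zero fun S hS => ?_
        rw [if_neg, mul_zero]
        intro h
        have := hF.2.1 S hS _ h
        simp at this
      rw [h1]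
      exact mul_nonneg (hs0 I) (hr0 _ I)
    · have h1 := step_bound hNb hw (h := h) (fun S => if (j, v₀) ∈ S then 1 else 0)
        (fun t => (∏ a ∈ t, s a) * ∑ a ∈ t, rho Nb s v₀ j a)
        (fun t => mul_nonneg (hs0 t) (hr0 j t)) (by
          intro t ht 𝓢' h𝓢'
          exact ih h ht h𝓢') hI hF
      have e1 : ∑ S ∈ 𝓢, (∏ q ∈ S, w q.2) * (if (j + 1, v₀) ∈ S then (1 : ℝ) else 0) =
          ∑ S ∈ 𝓢, (∏ q ∈ S, w q.2) * (if (j, v₀) ∈ dn S then (1 : ℝ) else 0) := by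
        refine Finset.sum_congr rfl fun S _ => ?_
        rw [if_congr (mem_dn (S := S) (j := j) (u := v₀)).symm rfl rfl]
      rw [e1]
      refine h1.trans ?_
      rw [sum_powerset_mark _ s _ hs]
      have hφ : ∀ b, 0 ≤ rho Nb s v₀ j b * s b / (1 + s b) := by
        intro b
        have := hs b
        exact div_nonneg (mul_nonneg (rho_nonneg hs v₀ j b) (hs b)) (by linarith)
      have h2 : ∑ b ∈ I.biUnion Nb, rho Nb s v₀ j b * s b / (1 + s b) ≤
          ∑ a ∈ I, rho Nb s v₀ (j + 1) a := sum_biUnion_le' hφ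
      have h3 : (∏ a ∈ I, w a) * ∏ b ∈ I.biUnion Nb, (1 + s b) ≤ ∏ a ∈ I, s a := by
        calc (∏ a ∈ I, w a) * ∏ b ∈ I.biUnion Nb, (1 + s b)
            ≤ (∏ a ∈ I, w a) * ∏ a ∈ I, ∏ b ∈ Nb a, (1 + s b) :=
              mul_le_mul_of_nonneg_left (prod_biUnion_le' fun v => by linarith [hs v])
                (Finset.prod_nonneg fun a _ => hw a)
          _ = ∏ a ∈ I, (w a * ∏ b ∈ Nb a, (1 + s b)) := by rw [Finset.prod_mul_distrib]
          _ ≤ ∏ a ∈ I, s a := by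
              refine Finset.prod_le_prod (fun a _ => ?_) fun a ha => hws a (hI a ha)
              exact mul_nonneg (hw a) (Finset.prod_nonneg fun b _ => by linarith [hs b])
      rw [← mul_assoc]
      exact mul_le_mul h3 h2 (Finset.sum_nonneg fun b _ => hφ b) (hs0 I)

theorem rho_total {𝓑 : Set V} {Nb : V → Finset V}
    (hNb : ∀ a ∈ 𝓑, ∀ b, b ∈ Nb a ↔ b ∈ 𝓑 ∧ meets dm b a) {s : V → ℝ}
    (hs : ∀ v, 0 ≤ s v) {r : ℝ} (hr : 0 ≤ r)
    (hsr : ∀ b ∈ 𝓑, ∑ a ∈ Nb b, s a ≤ r * (1 + s b)) (v₀ : V) (j : ℕ) (A : Finset V)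
    (hA : ∀ a ∈ A, a ∈ 𝓑) : ∑ a ∈ A, s a * rho Nb s v₀ j a ≤ r ^ j * s v₀ := by
  induction j generalizing A with
  | zero =>
    simp only [rho, pow_zero, one_mul, mul_ite, mul_one, mul_zero]
    rw [Finset.sum_ite_eq']
    split_ifs
    · exact le_rfl
    · exact hs v₀
  | succ j ih =>
    obtain ⟨φ, hφ⟩ : ∃ φ : V → ℝ, ∀ b, φ b = rho Nb s v₀ j b * s b / (1 + s b) :=
      ⟨_, fun _ => rfl⟩
    have hφ0 : ∀ b, 0 ≤ φ b := by
      intro b
      rw [hφ]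
      have := hs b
      exact div_nonneg (mul_nonneg (rho_nonneg hs v₀ j b) (hs b)) (by linarith)
    have h1 : ∑ a ∈ A, s a * rho Nb s v₀ (j + 1) a = ∑ a ∈ A, ∑ b ∈ Nb a, s a * φ b := by
      refine Finset.sum_congr rfl fun a _ => ?_
      simp only [rho, ← hφ, Finset.mul_sum]
    rw [h1, Finset.sum_comm' (t' := A.biUnion Nb) (s' := fun b => A.filter fun a => b ∈ Nb a) (by
      intro a b
      simp only [Finset.mem_filter, Finset.mem_biUnion]
      constructor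
      · rintro ⟨h2, h3⟩
        exact ⟨⟨h2, h3⟩, a, h2, h3⟩
      · rintro ⟨h2, -⟩
        exact h2)]
    have hA' : ∀ b ∈ A.biUnion Nb, b ∈ 𝓑 := by
      intro b hb
      rw [Finset.mem_biUnion] at hb
      obtain ⟨a, ha, hb⟩ := hb
      exact ((hNb a (hA a ha) b).1 hb).1
    calc ∑ b ∈ A.biUnion Nb, ∑ a ∈ A.filter (fun a => b ∈ Nb a), s a * φ b
        ≤ ∑ b ∈ A.biUnion Nb, r * (s b * rho Nb s v₀ j b) := by
          refine Finset.sum_le_sum fun b hb => ?_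
          rw [← Finset.sum_mul]
          have hbB := hA' b hb
          have h2 : ∑ a ∈ A.filter (fun a => b ∈ Nb a), s a ≤ r * (1 + s b) := by
            refine le_trans (Finset.sum_le_sum_of_subset_of_nonneg ?_ fun a _ _ => hs a)
              (hsr b hbB)
            intro a ha
            rw [Finset.mem_filter] at ha
            have h3 := (hNb a (hA a ha.1) b).1 ha.2
            exact (hNb b hbB a).2 ⟨hA a ha.1, meets_symm h3.2⟩
          refine (mul_le_mul_of_nonneg_right h2 (hφ0 b)).trans (le_of_eq ?_)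
          rw [hφ]
          have h3 : (1 : ℝ) + s b ≠ 0 := by have := hs b; linarith
          field_simp
      _ = r * ∑ b ∈ A.biUnion Nb, s b * rho Nb s v₀ j b := by rw [Finset.mul_sum]
      _ ≤ r * (r ^ j * s v₀) := mul_le_mul_of_nonneg_left (ih _ hA') hr
      _ = _ := by ring

/-- single-top layered structures of members of `𝓑`. -/
def Str (dm : V → Finset X) (𝓑 : Set V) (S : Finset (ℕ × V)) : Prop :=
  (∃ v, ∀ u, (0, u) ∈ S ↔ u = v) ∧ (∀ q ∈ S, q.2 ∈ 𝓑) ∧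
    (∀ j u, (j + 1, u) ∈ S → ∃ u', (j, u') ∈ S ∧ meets dm u u') ∧
    (∀ q ∈ S, ∀ q' ∈ S, q.1 = q'.1 → meets dm q.2 q'.2 → q = q')

/-- the weighted number of single-top structures through a given member. -/
theorem str_sum {𝓑 : Set V} {Nb : V → Finset V}
    (hNb : ∀ a ∈ 𝓑, ∀ b, b ∈ Nb a ↔ b ∈ 𝓑 ∧ meets dm b a) {w s : V → ℝ} (hw : ∀ v, 0 ≤ w v)
    (hs : ∀ v, 0 ≤ s v) (hws : ∀ a ∈ 𝓑, w a * ∏ b ∈ Nb a, (1 + s b) ≤ s a) {r : ℝ}
    (hr : 0 ≤ r) (hr1 : r < 1) (hsr : ∀ b ∈ 𝓑, ∑ a ∈ Nb b, s a ≤ r * (1 + s b)) (v₀ : V)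
    (𝓢 : Finset (Finset (ℕ × V))) (hS : ∀ S ∈ 𝓢, Str dm 𝓑 S ∧ ∃ j, (j, v₀) ∈ S) :
    ∑ S ∈ 𝓢, ∏ q ∈ S, w q.2 ≤ s v₀ / (1 - r) := by
  have htop : ∀ S, ∃ v, S ∈ 𝓢 → ∀ u, (0, u) ∈ S ↔ u = v := by
    intro S
    by_cases h : S ∈ 𝓢
    · obtain ⟨v, hv⟩ := (hS S h).1.1
      exact ⟨v, fun _ => hv⟩
    · exact ⟨v₀, fun h' => absurd h' h⟩
  choose top htop using htop
  obtain ⟨H, hH⟩ : ∃ H : ℕ, ∀ S ∈ 𝓢, ∀ q ∈ S, q.1 < H :=
    ⟨𝓢.sup (fun S => S.sup fun q => q.1 + 1), fun S hS' q hq =>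
      lt_of_lt_of_le (Nat.lt_succ_self _) (le_trans (Finset.le_sup (f := fun q : ℕ × V => q.1 + 1) hq)
        (Finset.le_sup (f := fun S : Finset (ℕ × V) => S.sup fun q => q.1 + 1) hS'))⟩
  have hw0 : ∀ S : Finset (ℕ × V), 0 ≤ ∏ q ∈ S, w q.2 := fun S => Finset.prod_nonneg fun q _ => hw _
  calc ∑ S ∈ 𝓢, ∏ q ∈ S, w q.2
      ≤ ∑ S ∈ 𝓢, ∑ j ∈ Finset.range H, (∏ q ∈ S, w q.2) * (if (j, v₀) ∈ S then 1 else 0) := by
        refine Finset.sum_le_sum fun S hS' => ?_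
        obtain ⟨j, hj⟩ := (hS S hS').2
        have h1 : j ∈ Finset.range H := Finset.mem_range.2 (hH S hS' _ hj)
        have h2 := Finset.single_le_sum
          (f := fun j => (∏ q ∈ S, w q.2) * (if (j, v₀) ∈ S then (1 : ℝ) else 0))
          (fun i _ => mul_nonneg (hw0 S) (by split_ifs <;> norm_num)) h1
        simp only [hj, if_true, mul_one] at h2
        exact h2
    _ = ∑ j ∈ Finset.range H, ∑ S ∈ 𝓢, (∏ q ∈ S, w q.2) * (if (j, v₀) ∈ S then 1 else 0) :=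
        Finset.sum_comm
    _ ≤ ∑ j ∈ Finset.range H, r ^ j * s v₀ := by
        refine Finset.sum_le_sum fun j _ => ?_
        rw [← Finset.sum_fiberwise_of_maps_to (g := top) (t := 𝓢.image top)
          (fun S hS' => Finset.mem_image_of_mem _ hS')]
        have hA : ∀ a ∈ 𝓢.image top, a ∈ 𝓑 := by
          intro a ha
          obtain ⟨S, hS', rfl⟩ := Finset.mem_image.1 ha
          exact (hS S hS').1.2.1 (0, top S) ((htop S hS' _).2 rfl)
        refine le_trans (Finset.sum_le_sum fun a ha => ?_)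
          (rho_total hNb hs hr hsr v₀ j (𝓢.image top) hA)
        have h1 := wsum_mark hNb hw hs hws v₀ j H (I := {a})
          (fun v hv => by rw [Finset.mem_singleton] at hv; rw [hv]; exact hA a ha)
          (𝓢 := 𝓢.filter fun S => top S = a) (by
            refine ⟨?_, ?_, ?_, ?_⟩
            · intro S hS' u
              rw [Finset.mem_filter] at hS'
              rw [htop S hS'.1, Finset.mem_singleton, hS'.2]
            · intro S hS' q hq
              rw [Finset.mem_filter] at hS'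
              exact (hH S hS'.1 q hq).le
            · intro S hS' q hq
              rw [Finset.mem_filter] at hS'
              exact (hS S hS'.1).1.2.1 q hq
            · intro S hS'
              rw [Finset.mem_filter] at hS'
              exact (hS S hS'.1).1.2.2.1)
        simpa using h1
    _ = (∑ j ∈ Finset.range H, r ^ j) * s v₀ := by rw [Finset.sum_mul]
    _ ≤ (1 - r)⁻¹ * s v₀ := by
        refine mul_le_mul_of_nonneg_right ?_ (hs v₀)
        rw [← tsum_geometric_of_lt_one hr hr1]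
        exact (summable_geometric_of_lt_one hr hr1).sum_le_tsum _ fun _ _ => by positivity
    _ = _ := by rw [div_eq_mul_inv, mul_comm]

end

end Pool.Agent.Helper105
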