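import Mathlib
import Pool.Agent.Helper105_Full.Struct
import Pool.Agent.Helper105_Full.Soft

set_option autoImplicit false

namespace Pool.Agent.Helper105

open scoped Classical

section
variable {X V : Type*} {k : ℕ} {dm : V → Finset X} {viol : V → (X → Fin k) → Prop}

theorem lay_indep {l : List V} : ∀ q ∈ Lay dm l, ∀ q' ∈ Lay dm l, q.1 = q'.1 →
    meets dm q.2 q'.2 → q = q' := by
  induction l with
  | nil => intro q hq; simp [Lay] at hq
  | cons w l ih =>
    intro q hq q' hq' h1 h2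
    rw [Lay, Finset.mem_insert] at hq hq'
    rcases hq with rfl | hq
    · rcases hq' with rfl | hq'
      · rfl
      · simp only at h1 h2
        have := lay_lt hq' h2
        omega
    · rcases hq' with rfl | hq'
      · simp only at h1 h2
        have := lay_lt hq (meets_symm h2)
        omega
      · exact ih q hq q' hq' h1 h2

theorem lay_str {𝓑 : Set V} {v : V} {l : List V} (h : Pyr dm v l) (hl : ∀ u ∈ l, u ∈ 𝓑) :
    Str dm 𝓑 (Lay dm l) :=
  ⟨⟨v, fun u => lay_zero h u⟩, fun q hq => hl q.2 (lay_mem hq), fun _ _ hu => lay_succ hu,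
    lay_indep⟩

/-- the row of `x` used by the node `q`. -/
noncomputable def row (dm : V → Finset X) (S : Finset (ℕ × V)) (q : ℕ × V) (x : X) : ℕ :=
  (S.filter (fun q' => q.1 < q'.1 ∧ x ∈ dm q'.2)).card

theorem row_lt {S : Finset (ℕ × V)} {q : ℕ × V} (hq : q ∈ S) (x : X) : row dm S q x < S.card := by
  unfold row
  refine Finset.card_lt_card ⟨Finset.filter_subset _ _, fun h => ?_⟩
  exact lt_irrefl _ (Finset.mem_filter.1 (h hq)).2.1

theorem lcons_congr (hloc : ∀ v f g, (∀ x ∈ dm v, f x = g x) → (viol v f ↔ viol v g))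
    {S : Finset (ℕ × V)} {T T' : X × ℕ → Fin k}
    (h : ∀ q ∈ S, ∀ x ∈ dm q.2, ∀ r < S.card, T (x, r) = T' (x, r)) :
    LCons dm viol S T ↔ LCons dm viol S T' := by
  refine forall₂_congr fun q hq => hloc _ _ _ fun x hx => ?_
  exact h q hq x hx _ (row_lt hq x)

/-- one more independent constraint. -/
theorem indep_step {Y : Type*} {D c : Finset Y} (hc : c ⊆ D) (T₀ : Y → Fin k) {P : ℝ}
    (A E F : (Y → Fin k) → Prop) (hF : ∀ T, F T ↔ E T ∧ A T)
    (hA : ∀ T T' : Y → Fin k, (∀ y, y ∉ c → T y = T' y) → (A T ↔ A T'))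
    (hE : ∀ T, (((Tab c T).filter E).card : ℝ) ≤ P * (k : ℝ) ^ c.card) :
    (((Tab D T₀).filter F).card : ℝ) ≤ P * ((Tab D T₀).filter A).card := by
  have hD : ∀ y, y ∈ D ↔ y ∈ D \ c ∨ y ∈ c := by
    intro y
    rw [Finset.mem_sdiff]
    constructor
    · intro h
      by_cases hy : y ∈ c
      · exact Or.inr hy
      · exact Or.inl ⟨h, hy⟩
    · rintro (h | h)
      · exact h.1
      · exact hc h
  have hd : ∀ y ∈ D \ c, y ∉ c := fun y hy => (Finset.mem_sdiff.1 hy).2
  have hA' : ∀ T, ∀ S ∈ Tab c T, (A S ↔ A T) := fun T S hS => hA S T fun y hy => mem_Tab.1 hS y hy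
  rw [card_Tab_union' hD hd T₀ F, card_Tab_union' hD hd T₀ A]
  push_cast
  rw [Finset.mul_sum]
  refine Finset.sum_le_sum fun T _ => ?_
  by_cases hAT : A T
  · have e1 : (Tab c T).filter F = (Tab c T).filter E := by
      apply Finset.filter_congr
      intro S hS
      simp [hF, (hA' T S hS).2 hAT]
    have e2 : (Tab c T).filter A = Tab c T :=
      Finset.filter_true_of_mem fun S hS => (hA' T S hS).2 hAT
    rw [e1, e2, card_Tab]
    push_cast
    exact hE T
  · have e1 : (Tab c T).filter F = ∅ := by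
      rw [Finset.filter_eq_empty_iff]
      intro S hS h
      exact hAT ((hA' T S hS).1 ((hF S).1 h).2)
    have e2 : (Tab c T).filter A = ∅ := by
      rw [Finset.filter_eq_empty_iff]
      intro S hS h
      exact hAT ((hA' T S hS).1 h)
    rw [e1, e2]
    simp

/-- the probability that a layered structure is consistent. -/
theorem str_prob {𝓑 : Set V} {p : V → ℝ} (hp : ∀ v, 0 ≤ p v)
    (hloc : ∀ v f g, (∀ x ∈ dm v, f x = g x) → (viol v f ↔ viol v g))
    (hviol : ∀ w ∈ 𝓑, ∀ f₀, (((Tab (dm w) f₀).filter (viol w)).card : ℝ) ≤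
      p w * (k : ℝ) ^ (dm w).card) {S : Finset (ℕ × V)} (hSB : ∀ q ∈ S, q.2 ∈ 𝓑)
    (hSi : ∀ q ∈ S, ∀ q' ∈ S, q.1 = q'.1 → meets dm q.2 q'.2 → q = q')
    {D : Finset (X × ℕ)} (hD : ∀ q ∈ S, ∀ x ∈ dm q.2, ∀ r < S.card, (x, r) ∈ D)
    (T₀ : X × ℕ → Fin k) :
    (((Tab D T₀).filter fun T => LCons dm viol S T).card : ℝ) ≤
      (∏ q ∈ S, p q.2) * (k : ℝ) ^ D.card := by
  obtain ⟨c, hc⟩ : ∃ c : ℕ × V → Finset (X × ℕ), ∀ q, c q =
      (dm q.2).image fun x => (x, row dm S q x) := ⟨_, fun _ => rfl⟩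
  obtain ⟨E, hE⟩ : ∃ E : ℕ × V → (X × ℕ → Fin k) → Prop, ∀ q T, E q T ↔
      viol q.2 (fun x => T (x, row dm S q x)) := ⟨_, fun _ _ => Iff.rfl⟩
  have hcd : ∀ q ∈ S, ∀ q' ∈ S, q ≠ q' → ∀ y ∈ c q, y ∉ c q' := by
    have main : ∀ q ∈ S, ∀ q' ∈ S, q.1 < q'.1 → ∀ x ∈ dm q.2, x ∈ dm q'.2 →
        row dm S q' x < row dm S q x := by
      intro q _ q' hq' hlt x _ hx'
      unfold row
      refine Finset.card_lt_card ⟨fun z hz => ?_, fun h => ?_⟩
      · rw [Finset.mem_filter] at hz ⊢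
        exact ⟨hz.1, hlt.trans hz.2.1, hz.2.2⟩
      · have h1 : q' ∈ S.filter (fun z => q.1 < z.1 ∧ x ∈ dm z.2) :=
          Finset.mem_filter.2 ⟨hq', hlt, hx'⟩
        exact lt_irrefl _ (Finset.mem_filter.1 (h h1)).2.1
    intro q hq q' hq' hne y hy hy'
    rw [hc, Finset.mem_image] at hy hy'
    obtain ⟨x, hx, rfl⟩ := hy
    obtain ⟨x', hx', h1⟩ := hy'
    rw [Prod.mk.injEq] at h1
    obtain ⟨rfl, h2⟩ := h1
    rcases lt_trichotomy q.1 q'.1 with h | h | h
    · have := main q hq q' hq' h x' hx hx'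
      omega
    · exact hne (hSi q hq q' hq' h ⟨x', hx, hx'⟩)
    · have := main q' hq' q hq h x' hx' hx
      omega
  have hcD : ∀ q ∈ S, c q ⊆ D := by
    intro q hq y hy
    rw [hc, Finset.mem_image] at hy
    obtain ⟨x, hx, rfl⟩ := hy
    exact hD q hq x hx _ (row_lt hq x)
  have hone : ∀ q ∈ S, ∀ T, (((Tab (c q) T).filter (E q)).card : ℝ) ≤
      p q.2 * (k : ℝ) ^ (c q).card := by
    intro q hq T
    have hinj : Function.Injective fun x : X => (x, row dm S q x) := fun x y h => by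
      rw [Prod.mk.injEq] at h; exact h.1
    have e : (c q).card = (dm q.2).card := by
      rw [hc, Finset.card_image_of_injective _ hinj]
    rw [e]
    refine le_trans ?_ (hviol q.2 (hSB q hq) fun x => T (x, row dm S q x))
    rw [Nat.cast_le]
    refine Finset.card_le_card_of_injOn (fun T' x => T' (x, row dm S q x)) ?_ ?_
    · intro T' hT'
      simp only [Finset.coe_filter, Set.mem_ofPred_eq] at hT' ⊢
      refine ⟨mem_Tab.2 fun x hx => mem_Tab.1 hT'.1 _ ?_, (hE _ _).1 hT'.2⟩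
      rw [hc, Finset.mem_image]
      rintro ⟨x', hx', h1⟩
      rw [Prod.mk.injEq] at h1
      exact hx (h1.1 ▸ hx')
    · intro T₁ hT₁ T₂ hT₂ h
      simp only [Finset.coe_filter, Set.mem_ofPred_eq] at hT₁ hT₂
      funext y
      by_cases hy : y ∈ c q
      · have hy' := hy
        rw [hc, Finset.mem_image] at hy'
        obtain ⟨x, hx, rfl⟩ := hy'
        exact congrFun h x
      · rw [mem_Tab.1 hT₁.1 y hy, mem_Tab.1 hT₂.1 y hy]
  obtain ⟨AR, hAR⟩ : ∃ AR : Finset (ℕ × V) → (X × ℕ → Fin k) → Prop, ∀ R T, AR R T ↔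
      ∀ q ∈ R, E q T := ⟨_, fun _ _ => Iff.rfl⟩
  have hind : ∀ R : Finset (ℕ × V), R ⊆ S →
      (((Tab D T₀).filter (AR R)).card : ℝ) ≤
        (∏ q ∈ R, p q.2) * (k : ℝ) ^ D.card := by
    intro R
    induction R using Finset.induction_on with
    | empty =>
      intro _
      rw [Finset.prod_empty, one_mul]
      refine le_trans (Nat.cast_le.2 (Finset.card_filter_le _ _)) ?_
      rw [card_Tab]
      push_cast
      exact le_rfl
    | @insert q R hqR ih =>
      intro hR
      have hq : q ∈ S := hR (Finset.mem_insert_self _ _)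
      have hRS : R ⊆ S := fun z hz => hR (Finset.mem_insert_of_mem hz)
      have h1 := indep_step (hcD q hq) T₀ (AR R) (E q) (AR (insert q R)) (by
        intro T
        rw [hAR, hAR, Finset.forall_mem_insert]) (by
        intro T T' hTT
        rw [hAR, hAR]
        refine forall₂_congr fun q' hq' => ?_
        rw [hE, hE]
        refine hloc _ _ _ fun x hx => hTT _ ?_
        refine hcd q' (hRS hq') q hq (fun h => hqR (h ▸ hq')) _ ?_
        rw [hc, Finset.mem_image]
        exact ⟨x, hx, rfl⟩) (hone q hq)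
      rw [Finset.prod_insert hqR, mul_assoc]
      exact h1.trans (mul_le_mul_of_nonneg_left (ih hRS) (hp q.2))
  have h2 := hind S (Finset.Subset.refl _)
  have e : (Tab D T₀).filter (fun T => LCons dm viol S T) =
      (Tab D T₀).filter (AR S) := by
    apply Finset.filter_congr
    intro T _
    rw [hAR]
    exact forall₂_congr fun q _ => (hE q T).symm
  rw [e]
  exact h2

end

end Pool.Agent.Helper105
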