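import Mathlib
import Pool.Agent.Helper105_Tree.Meas
import Pool.Agent.Helper105_Sub.Ball
import Pool.Agent.Helper105_Full.Prob

set_option autoImplicit false

namespace Pool.Agent.Helper105

open MeasureTheory Set
open scoped Classical

attribute [-instance] Finset.instMeasurableSpace
attribute [local instance] finsetBorel sb_finset

section comb
variable {X V : Type*} {dm : V → Finset X} {𝓑 : Set V}

theorem str_lvl {S : Finset (ℕ × V)} (hS : Str dm 𝓑 S) {j : ℕ} {u : V} (hu : (j, u) ∈ S) :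
    j < S.card := by
  have h1 : ∀ i ≤ j, ∃ u', (j - i, u') ∈ S := by
    intro i
    induction i with
    | zero => intro _; exact ⟨u, hu⟩
    | succ i ih =>
      intro hi
      obtain ⟨u', hu'⟩ := ih (by omega)
      have e : j - i = (j - (i + 1)) + 1 := by omega
      rw [e] at hu'
      obtain ⟨u'', h2, -⟩ := hS.2.2.1 _ _ hu'
      exact ⟨u'', h2⟩
  have h2 : Finset.range (j + 1) ⊆ S.image Prod.fst := by
    intro i hi
    rw [Finset.mem_range] at hi
    obtain ⟨u', hu'⟩ := h1 (j - i) (by omega)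
    have e : j - (j - i) = i := by omega
    rw [e] at hu'
    exact Finset.mem_image.2 ⟨_, hu', rfl⟩
  have h3 := Finset.card_le_card h2
  rw [Finset.card_range] at h3
  exact lt_of_lt_of_le (Nat.lt_succ_self j) (h3.trans Finset.card_image_le)

theorem str_top {S : Finset (ℕ × V)} (hS : Str dm 𝓑 S) : ∃ a ∈ 𝓑, ∀ u, (0, u) ∈ S ↔ u = a := by
  obtain ⟨a, ha⟩ := hS.1
  exact ⟨a, hS.2.1 (0, a) ((ha a).2 rfl), ha⟩

theorem str_bl {S : Finset (ℕ × V)} (hS : Str dm 𝓑 S) {a : V} (ha : ∀ u, (0, u) ∈ S ↔ u = a)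
    {j : ℕ} {u : V} (hu : (j, u) ∈ S) : Bl dm 𝓑 j a u := by
  induction j generalizing u with
  | zero => exact (ha u).1 hu
  | succ j ih =>
    obtain ⟨u', h1, h2⟩ := hS.2.2.1 _ _ hu
    exact ⟨hS.2.1 _ hu, u', ih h1, h2⟩

theorem str_bl2 (hne : ∀ v ∈ 𝓑, (dm v).Nonempty) {S : Finset (ℕ × V)} (hS : Str dm 𝓑 S)
    {i j : ℕ} {u v : V} (hu : (j, u) ∈ S) (hv : (i, v) ∈ S) {n : ℕ} (hn : 2 * S.card ≤ n) :
    Bl dm 𝓑 n v u := by
  obtain ⟨a, haB, ha⟩ := str_top hS
  have h1 := bl_symm haB (str_bl hS ha hv)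
  have h2 := str_bl hS ha hu
  have h3 := str_lvl hS hu
  have h4 := str_lvl hS hv
  exact bl_mono hne (by omega) (hS.2.1 _ hv) (bl_trans h1 h2)

/-- the cells of a structure. -/
noncomputable def DS (dm : V → Finset X) (S : Finset (ℕ × V)) : Finset (X × ℕ) :=
  ((S.image Prod.snd).biUnion dm) ×ˢ Finset.range S.card

theorem mem_DS {S : Finset (ℕ × V)} {c : X × ℕ} :
    c ∈ DS dm S ↔ (∃ q ∈ S, c.1 ∈ dm q.2) ∧ c.2 < S.card := by
  simp only [DS, Finset.mem_product, Finset.mem_biUnion, Finset.mem_image, Finset.mem_range]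
  refine and_congr ?_ Iff.rfl
  constructor
  · rintro ⟨u, ⟨q, hq, rfl⟩, h⟩
    exact ⟨q, hq, h⟩
  · rintro ⟨q, hq, h⟩
    exact ⟨q.2, ⟨q, hq, rfl⟩, h⟩

end comb

section meas
variable {Y Z : Type*} [MeasurableSpace Y] [StandardBorelSpace Y] [MeasurableSpace Z]
  [StandardBorelSpace Z]

theorem forall_mem_meas {F : Z → Finset Y} (hF : MeasurableSet {p : Z × Y | p.2 ∈ F p.1})
    {P : Z → Y → Prop} (hP : MeasurableSet {p : Z × Y | P p.1 p.2}) :
    MeasurableSet {z | ∀ y ∈ F z, P z y} := by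
  have e : {z | ∀ y ∈ F z, P z y} = {z | ∃ y, (z, y) ∈ {p : Z × Y | p.2 ∈ F p.1 ∧
      ¬ P p.1 p.2}}ᶜ := by
    ext z
    simp only [mem_ofPred_eq, mem_compl_iff, not_exists, not_and, not_not]
  rw [e]
  refine MeasurableSet.compl (proj (hF.inter hP.compl) fun z => ?_)
  exact ((F z).finite_toSet.subset fun y hy => hy.1).countable

theorem exists_mem_meas {F : Z → Finset Y} (hF : MeasurableSet {p : Z × Y | p.2 ∈ F p.1})
    {P : Z → Y → Prop} (hP : MeasurableSet {p : Z × Y | P p.1 p.2}) :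
    MeasurableSet {z | ∃ y ∈ F z, P z y} := by
  have e : {z | ∃ y ∈ F z, P z y} = {z | ∃ y, (z, y) ∈ {p : Z × Y | p.2 ∈ F p.1 ∧
      P p.1 p.2}} := by
    ext z
    simp only [mem_ofPred_eq]
  rw [e]
  refine proj (hF.inter hP) fun z => ?_
  exact ((F z).finite_toSet.subset fun y hy => hy.1).countable

theorem meas_nat_of_real {W : Type*} [MeasurableSpace W] {f : W → ℕ}
    (hf : Measurable fun w => (f w : ℝ)) : Measurable f := by
  refine measurable_to_countable' fun n => ?_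
  have e : f ⁻¹' {n} = (fun w => (f w : ℝ)) ⁻¹' {(n : ℝ)} := by
    ext w
    simp
  rw [e]
  exact hf (measurableSet_singleton _)

theorem card_meas {F : Z → Finset Y} (hF : MeasurableSet {p : Z × Y | p.2 ∈ F p.1}) :
    Measurable fun z => (F z).card := by
  apply meas_nat_of_real
  have e : (fun z => ((F z).card : ℝ)) = fun z => ∑ _y ∈ F z, (1 : ℝ) := by
    funext z; simp
  rw [e]
  exact measurable_fsum F hF (fun _ _ => 1) measurable_const

end meas

section atoms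
universe u
variable {X V : Type u} [MeasurableSpace X] [StandardBorelSpace X] [MeasurableSpace V]
  [StandardBorelSpace V] {k : ℕ} {dm : V → Finset X} {viol : V → (X → Fin k) → Prop}
  {𝓑 : Set V}

theorem selfmem : MeasurableSet {p : Finset (ℕ × V) × (ℕ × V) | p.2 ∈ p.1} :=
  measurableSet_mem (ℕ × V)

theorem scard_meas : Measurable fun S : Finset (ℕ × V) => S.card :=
  card_meas (F := fun S : Finset (ℕ × V) => S) selfmem

theorem str_meas (h𝓑 : MeasurableSet 𝓑) (hdm : MeasurableSet {p : V × X | p.2 ∈ dm p.1}) :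
    MeasurableSet {S : Finset (ℕ × V) | Str dm 𝓑 S} := by
  have hm := meets_meas (dm := dm) hdm
  have e : {S : Finset (ℕ × V) | Str dm 𝓑 S} =
      ({S | ∃ q ∈ S, q.1 = 0} ∩ {S | ∀ q ∈ S, ∀ q' ∈ S, (q.1 = 0 ∧ q'.1 = 0) → q.2 = q'.2}) ∩
      ({S | ∀ q ∈ S, q.2 ∈ 𝓑} ∩
      ({S | ∀ q ∈ S, (q.1 = 0 ∨ ∃ q' ∈ S, q'.1 + 1 = q.1 ∧ meets dm q.2 q'.2)} ∩
      {S | ∀ q ∈ S, ∀ q' ∈ S, (q.1 = q'.1 ∧ meets dm q.2 q'.2) → q = q'})) := by
    ext S
    simp only [mem_ofPred_eq, mem_inter_iff, Str]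
    refine and_congr ?_ (and_congr Iff.rfl (and_congr ?_ ?_))
    · constructor
      · rintro ⟨v, hv⟩
        refine ⟨⟨(0, v), (hv v).2 rfl, rfl⟩, ?_⟩
        rintro ⟨i, a⟩ hq ⟨j, b⟩ hq' ⟨h1, h2⟩
        simp only at h1 h2
        subst h1; subst h2
        exact ((hv a).1 hq).trans ((hv b).1 hq').symm
      · rintro ⟨⟨⟨i, v⟩, hq, h1⟩, h2⟩
        simp only at h1
        subst h1
        refine ⟨v, fun u => ⟨fun hu => ?_, fun hu => hu ▸ hq⟩⟩
        exact h2 (0, u) hu (0, v) hq ⟨rfl, rfl⟩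
    · constructor
      · rintro h ⟨j, u⟩ hq
        rcases j with _ | j
        · exact Or.inl rfl
        · obtain ⟨u', h1, h2⟩ := h j u hq
          exact Or.inr ⟨(j, u'), h1, rfl, h2⟩
      · intro h j u hq
        rcases h (j + 1, u) hq with h1 | ⟨⟨i, u'⟩, h1, h2, h3⟩
        · simp at h1
        · simp only at h2 h3
          have : i = j := by omega
          subst this
          exact ⟨u', h1, h3⟩
    · constructor
      · intro h q hq q' hq' h1
        exact h q hq q' hq' h1.1 h1.2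
      · intro h q hq q' hq' h1 h2
        exact h q hq q' hq' ⟨h1, h2⟩
  have hq2 : MeasurableSet {p : (Finset (ℕ × V) × (ℕ × V)) × (ℕ × V) | p.2 ∈ p.1.1} :=
    (by fun_prop : Measurable fun p : (Finset (ℕ × V) × (ℕ × V)) × (ℕ × V) => (p.1.1, p.2)) selfmem
  rw [e]
  refine MeasurableSet.inter (MeasurableSet.inter ?_ ?_) (MeasurableSet.inter ?_
    (MeasurableSet.inter ?_ ?_))
  · refine exists_mem_meas (F := fun S : Finset (ℕ × V) => S) selfmem (P := fun _ q => q.1 = 0) ?_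
    exact measurableSet_eq_fun (by fun_prop) measurable_const
  · refine forall_mem_meas (F := fun S : Finset (ℕ × V) => S) selfmem
      (P := fun S q => ∀ q' ∈ S, (q.1 = 0 ∧ q'.1 = 0) → q.2 = q'.2) ?_
    refine forall_mem_meas (F := fun p : Finset (ℕ × V) × (ℕ × V) => p.1) hq2
      (P := fun p q' => (p.2.1 = 0 ∧ q'.1 = 0) → p.2.2 = q'.2) ?_
    refine MeasurableSet.imp (MeasurableSet.inter ?_ ?_) ?_
    · exact measurableSet_eq_fun (by fun_prop) measurable_const
    · exact measurableSet_eq_fun (by fun_prop) measurable_const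
    · exact measurableSet_eq_fun (by fun_prop) (by fun_prop)
  · refine forall_mem_meas (F := fun S : Finset (ℕ × V) => S) selfmem (P := fun _ q => q.2 ∈ 𝓑) ?_
    exact (by fun_prop : Measurable fun p : Finset (ℕ × V) × (ℕ × V) => p.2.2) h𝓑
  · refine forall_mem_meas (F := fun S : Finset (ℕ × V) => S) selfmem
      (P := fun S q => q.1 = 0 ∨ ∃ q' ∈ S, q'.1 + 1 = q.1 ∧ meets dm q.2 q'.2) ?_
    refine MeasurableSet.union ?_ ?_
    · exact measurableSet_eq_fun (by fun_prop) measurable_const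
    · refine exists_mem_meas (F := fun p : Finset (ℕ × V) × (ℕ × V) => p.1) hq2
        (P := fun p q' => q'.1 + 1 = p.2.1 ∧ meets dm p.2.2 q'.2) ?_
      refine MeasurableSet.inter ?_ ?_
      · exact measurableSet_eq_fun (by fun_prop) (by fun_prop)
      · exact (by fun_prop : Measurable fun p : (Finset (ℕ × V) × (ℕ × V)) × (ℕ × V) =>
          (p.1.2.2, p.2.2)) hm
  · refine forall_mem_meas (F := fun S : Finset (ℕ × V) => S) selfmem
      (P := fun S q => ∀ q' ∈ S, (q.1 = q'.1 ∧ meets dm q.2 q'.2) → q = q') ?_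
    refine forall_mem_meas (F := fun p : Finset (ℕ × V) × (ℕ × V) => p.1) hq2
      (P := fun p q' => (p.2.1 = q'.1 ∧ meets dm p.2.2 q'.2) → p.2 = q') ?_
    refine MeasurableSet.imp (MeasurableSet.inter ?_ ?_) ?_
    · exact measurableSet_eq_fun (by fun_prop) (by fun_prop)
    · exact (by fun_prop : Measurable fun p : (Finset (ℕ × V) × (ℕ × V)) × (ℕ × V) =>
          (p.1.2.2, p.2.2)) hm
    · exact measurableSet_eq_fun (by fun_prop) (by fun_prop)

theorem DS_meas (hdm : MeasurableSet {p : V × X | p.2 ∈ dm p.1}) :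
    MeasurableSet {p : Finset (ℕ × V) × (X × ℕ) | p.2 ∈ DS dm p.1} := by
  have e : {p : Finset (ℕ × V) × (X × ℕ) | p.2 ∈ DS dm p.1} =
      {p | ∃ q ∈ p.1, p.2.1 ∈ dm q.2} ∩ {p | p.2.2 < p.1.card} := by
    ext p
    exact mem_DS
  rw [e]
  refine MeasurableSet.inter ?_ ?_
  · refine exists_mem_meas (F := fun p : Finset (ℕ × V) × (X × ℕ) => p.1) ?_
      (P := fun p q => p.2.1 ∈ dm q.2) ?_
    · exact (by fun_prop : Measurable fun p : (Finset (ℕ × V) × (X × ℕ)) × (ℕ × V) =>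
        (p.1.1, p.2)) selfmem
    · exact (by fun_prop : Measurable fun p : (Finset (ℕ × V) × (X × ℕ)) × (ℕ × V) =>
        (p.2.2, p.1.2.1)) hdm
  · exact measurableSet_lt (measurable_snd.comp measurable_snd) (scard_meas.comp measurable_fst)

theorem row_meas (hdm : MeasurableSet {p : V × X | p.2 ∈ dm p.1}) :
    Measurable fun p : (Finset (ℕ × V) × (ℕ × V)) × X => row dm p.1.1 p.1.2 p.2 := by
  refine card_meas (F := fun p : (Finset (ℕ × V) × (ℕ × V)) × X =>
    p.1.1.filter (fun q' => p.1.2.1 < q'.1 ∧ p.2 ∈ dm q'.2)) ?_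
  have e : {r : ((Finset (ℕ × V) × (ℕ × V)) × X) × (ℕ × V) | r.2 ∈ (fun p :
      (Finset (ℕ × V) × (ℕ × V)) × X =>
      p.1.1.filter (fun q' => p.1.2.1 < q'.1 ∧ p.2 ∈ dm q'.2)) r.1} =
      {r | r.2 ∈ r.1.1.1} ∩ ({r | r.1.1.2.1 < r.2.1} ∩ {r | r.1.2 ∈ dm r.2.2}) := by
    ext r
    simp only [mem_ofPred_eq, mem_inter_iff, Finset.mem_filter]
  rw [e]
  refine MeasurableSet.inter ?_ (MeasurableSet.inter ?_ ?_)
  · exact (by fun_prop : Measurable fun r : ((Finset (ℕ × V) × (ℕ × V)) × X) × (ℕ × V) =>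
      (r.1.1.1, r.2)) selfmem
  · exact measurableSet_lt (by fun_prop) (by fun_prop)
  · exact (by fun_prop : Measurable fun r : ((Finset (ℕ × V) × (ℕ × V)) × X) × (ℕ × V) =>
      (r.2.2, r.1.2)) hdm

/-- the event that the structure is consistent. -/
def BadS (dm : V → Finset X) (viol : V → (X → Fin k) → Prop) (𝓑 : Set V) (S : Finset (ℕ × V))
    (T : X × ℕ → Fin k) : Prop := (∀ q ∈ S, q.2 ∈ 𝓑) ∧ LCons dm viol S T

theorem badS_meas (h𝓑 : MeasurableSet 𝓑) (hdm : MeasurableSet {p : V × X | p.2 ∈ dm p.1})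
    (hvm : ∀ (Z : Type u) [MeasurableSpace Z] [StandardBorelSpace Z] (f : Z → X → Fin k),
      Measurable (fun p : Z × X => f p.1 p.2) →
        MeasurableSet {p : Z × V | p.2 ∈ 𝓑 ∧ viol p.2 (f p.1)})
    (T : X × ℕ → Fin k) (hT : Measurable T) :
    MeasurableSet {S : Finset (ℕ × V) | BadS dm viol 𝓑 S T} := by
  have h1 := hvm (Finset (ℕ × V) × (ℕ × V)) (fun z x => T (x, row dm z.1 z.2 x))
    (hT.comp (measurable_snd.prodMk (row_meas hdm)))
  have e : {S : Finset (ℕ × V) | BadS dm viol 𝓑 S T} = {S | ∀ q ∈ S,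
      (q.2 ∈ 𝓑 ∧ viol q.2 (fun x => T (x, row dm S q x)))} := by
    ext S
    simp only [mem_ofPred_eq, BadS, LCons, row]
    constructor
    · rintro ⟨h1, h2⟩ q hq
      exact ⟨h1 q hq, h2 q hq⟩
    · intro h
      exact ⟨fun q hq => (h q hq).1, fun q hq => (h q hq).2⟩
  rw [e]
  refine forall_mem_meas (F := fun S : Finset (ℕ × V) => S) selfmem
      (P := fun S q => q.2 ∈ 𝓑 ∧ viol q.2 (fun x => T (x, row dm S q x))) ?_
  exact (by fun_prop : Measurable fun p : Finset (ℕ × V) × (ℕ × V) => (p, p.2.2)) h1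

end atoms

end Pool.Agent.Helper105
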