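import Mathlib
import Pool.Agent.Helper105_Full.Stage2
import Pool.Agent.Helper105_Full.Atoms

set_option autoImplicit false

namespace Pool.Agent.Helper105

open MeasureTheory Set
open scoped Classical

theorem le_pow_div {Γ : ℝ} (hΓ : 1 < Γ) (n : ℕ) : (n : ℝ) ≤ (1 / (Γ - 1)) * Γ ^ n := by
  have h1 := one_add_mul_le_pow (show (-2 : ℝ) ≤ Γ - 1 by linarith) n
  have h2 : (1 : ℝ) + (Γ - 1) = Γ := by ring
  rw [h2] at h1
  have h3 : 0 < Γ - 1 := by linarith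
  rw [one_div, ← div_eq_inv_mul, le_div_iff₀ h3]
  linarith

theorem exp_bound (d : ℕ) : (1 + 1 / ((d : ℝ) + 1)) ^ (d + 1) ≤ Real.exp 1 := by
  have h0 : (0 : ℝ) < (d : ℝ) + 1 := by positivity
  have h1 : 1 + 1 / ((d : ℝ) + 1) ≤ Real.exp (1 / ((d : ℝ) + 1)) := by
    have := Real.add_one_le_exp (1 / ((d : ℝ) + 1))
    linarith
  calc (1 + 1 / ((d : ℝ) + 1)) ^ (d + 1) ≤ (Real.exp (1 / ((d : ℝ) + 1))) ^ (d + 1) :=
        pow_le_pow_left₀ (by positivity) h1 _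
    _ = Real.exp 1 := by
        rw [← Real.exp_nat_mul]
        congr 1
        push_cast
        field_simp

theorem consts {p : ℝ} {d : ℕ} (hp : 0 ≤ p) (hpd : Real.exp 1 * p * (d + 1) < 1) :
    ∃ Γ κ : ℝ, ∃ M : ℕ, 1 < Γ ∧
      Γ ^ 5 * p * (1 + 1 / ((d : ℝ) + 1)) ^ (d + 1) ≤ 1 / ((d : ℝ) + 1) ∧ 0 < κ ∧
      (1 / (Γ - 1)) * κ ≤ 1 / 2 ∧
      2 * ((1 / (Γ - 1)) * κ) * (1 + ((d : ℝ) + 1)) ≤ Real.log Γ ∧ 16 ≤ M ∧
      2 * Γ ^ 4 ≤ κ ^ 2 * Γ ^ M := by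
  have h0 : (0 : ℝ) < (d : ℝ) + 1 := by positivity
  obtain ⟨y, hy⟩ : ∃ y : ℝ, y = (Real.exp 1 * p * (d + 1) + 1) / 2 := ⟨_, rfl⟩
  have hx0 : 0 ≤ Real.exp 1 * p * (d + 1) := by positivity
  have hy0 : 0 < y := by rw [hy]; linarith
  have hy1 : y < 1 := by rw [hy]; linarith
  have hyx : Real.exp 1 * p * (d + 1) ≤ y := by rw [hy]; linarith
  obtain ⟨Γ, hΓ⟩ : ∃ Γ : ℝ, Γ = (1 / y) ^ ((1 : ℝ) / 5) := ⟨_, rfl⟩
  have hΓ1 : 1 < Γ := by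
    rw [hΓ]
    exact Real.one_lt_rpow (by rw [lt_div_iff₀ hy0]; linarith) (by norm_num)
  have hΓ5 : Γ ^ 5 * y = 1 := by
    have e : Γ ^ 5 = 1 / y := by
      rw [hΓ, ← Real.rpow_natCast, ← Real.rpow_mul (by positivity)]
      norm_num
    rw [e]
    field_simp
  have hK : 0 < 1 / (Γ - 1) := by
    have : 0 < Γ - 1 := by linarith
    positivity
  have hlog : 0 < Real.log Γ := Real.log_pos hΓ1
  obtain ⟨κ, hκ0, hκ1, hκ2⟩ : ∃ κ : ℝ, 0 < κ ∧ (1 / (Γ - 1)) * κ ≤ 1 / 2 ∧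
      2 * ((1 / (Γ - 1)) * κ) * (1 + ((d : ℝ) + 1)) ≤ Real.log Γ := by
    refine ⟨min (1 / 2) (Real.log Γ / (2 * (1 + ((d : ℝ) + 1)))) / (1 / (Γ - 1)), ?_, ?_, ?_⟩
    · refine div_pos (lt_min (by norm_num) ?_) hK
      positivity
    · rw [mul_div_cancel₀ _ hK.ne']
      exact min_le_left _ _
    · rw [mul_div_cancel₀ _ hK.ne']
      calc 2 * min (1 / 2) (Real.log Γ / (2 * (1 + ((d : ℝ) + 1)))) * (1 + ((d : ℝ) + 1))
          ≤ 2 * (Real.log Γ / (2 * (1 + ((d : ℝ) + 1)))) * (1 + ((d : ℝ) + 1)) := by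
            refine mul_le_mul_of_nonneg_right ?_ (by positivity)
            exact mul_le_mul_of_nonneg_left (min_le_right _ _) (by norm_num)
        _ = Real.log Γ := by field_simp
  obtain ⟨n, hn⟩ := pow_unbounded_of_one_lt (2 * Γ ^ 4 / κ ^ 2) hΓ1
  refine ⟨Γ, κ, max 16 n, hΓ1, ?_, hκ0, hκ1, hκ2, le_max_left _ _, ?_⟩
  · have hΓ0 : 0 ≤ Γ ^ 5 := by positivity
    rw [le_div_iff₀ h0]
    calc Γ ^ 5 * p * (1 + 1 / ((d : ℝ) + 1)) ^ (d + 1) * ((d : ℝ) + 1)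
        ≤ Γ ^ 5 * p * Real.exp 1 * ((d : ℝ) + 1) := by
          refine mul_le_mul_of_nonneg_right ?_ h0.le
          exact mul_le_mul_of_nonneg_left (exp_bound d) (by positivity)
      _ = Γ ^ 5 * (Real.exp 1 * p * (d + 1)) := by ring
      _ ≤ Γ ^ 5 * y := mul_le_mul_of_nonneg_left hyx hΓ0
      _ = 1 := hΓ5
  · have h1 : Γ ^ n ≤ Γ ^ max 16 n := pow_le_pow_right₀ hΓ1.le (le_max_right _ _)
    have h2 : 2 * Γ ^ 4 / κ ^ 2 ≤ Γ ^ max 16 n := hn.le.trans h1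
    rw [div_le_iff₀ (by positivity)] at h2
    linarith

end Pool.Agent.Helper105
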