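import Mathlib
import Pool.Agent.Helper105_Full.Num

set_option autoImplicit false

namespace Pool.Agent.Helper105

open MeasureTheory Set
open scoped Classical

attribute [-instance] Finset.instMeasurableSpace
attribute [local instance] finsetBorel sb_finset

section
universe u
variable {X V : Type u} {k : ℕ} {dm : V → Finset X} {viol : V → (X → Fin k) → Prop}

theorem badS_loc (hloc : ∀ v f g, (∀ x ∈ dm v, f x = g x) → (viol v f ↔ viol v g)) (𝓑 : Set V)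
    (S : Finset (ℕ × V)) (T T' : X × ℕ → Fin k) (h : ∀ y ∈ DS dm S, T y = T' y) :
    BadS dm viol 𝓑 S T ↔ BadS dm viol 𝓑 S T' := by
  unfold BadS
  refine and_congr_right fun _ => lcons_congr hloc fun q hq x hx r hr => h _ ?_
  exact mem_DS.2 ⟨⟨q, hq, hx⟩, hr⟩

theorem cp_full {Y : Type*} {D : Finset Y} {Bad : (Y → Fin k) → Prop} {U : Set Y}
    (h : ∀ y ∈ D, y ∈ U) (T : Y → Fin k) :
    cp D Bad U T = (((Tab D T).filter Bad).card : ℝ) / (k : ℝ) ^ D.card := by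
  unfold cp
  have e : D.filter (· ∈ U) = D := Finset.filter_true_of_mem h
  rw [e]

theorem cp_empty {Y : Type*} {D : Finset Y} {Bad : (Y → Fin k) → Prop} {U : Set Y}
    (h : ∀ y ∈ D, y ∉ U) (T : Y → Fin k) (hT : Bad T) : cp D Bad U T = 1 := by
  unfold cp
  have e : D.filter (· ∈ U) = ∅ := Finset.filter_false_of_mem h
  rw [e]
  have e2 : (Tab (∅ : Finset Y) T).filter Bad = {T} := by
    ext S
    rw [Finset.mem_filter, mem_Tab, Finset.mem_singleton]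
    constructor
    · rintro ⟨h1, -⟩
      funext y
      exact h1 y (Finset.notMem_empty y)
    · rintro rfl
      exact ⟨fun _ _ => rfl, hT⟩
  rw [e2]
  simp

theorem cp_univ_le (hk : 0 < k)
    (hloc : ∀ v f g, (∀ x ∈ dm v, f x = g x) → (viol v f ↔ viol v g)) {𝓑 : Set V} {p : ℝ}
    (hp : 0 ≤ p)
    (hviol : ∀ w ∈ 𝓑, ∀ f₀, (((Tab (dm w) f₀).filter (viol w)).card : ℝ) ≤
      p * (k : ℝ) ^ (dm w).card) {S : Finset (ℕ × V)} (hS : Str dm 𝓑 S) (T₀ : X × ℕ → Fin k) :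
    cp (DS dm S) (BadS dm viol 𝓑 S) univ T₀ ≤ p ^ S.card := by
  have hk' : (0 : ℝ) < k := by exact_mod_cast hk
  have h1 := str_prob (p := fun _ => p) (fun _ => hp) hloc hviol hS.2.1 hS.2.2.2
    (D := DS dm S) (fun q hq x hx r hr => mem_DS.2 ⟨⟨q, hq, hx⟩, hr⟩) T₀
  rw [Finset.prod_const] at h1
  rw [cp_full (fun _ _ => mem_univ _), div_le_iff₀ (by positivity)]
  refine le_trans ?_ h1
  rw [Nat.cast_le]
  refine Finset.card_le_card fun T hT => ?_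
  rw [Finset.mem_filter] at hT ⊢
  exact ⟨hT.1, hT.2.2⟩

/-- the tests before the first stage. -/
theorem init_bound (hk : 0 < k)
    (hloc : ∀ v f g, (∀ x ∈ dm v, f x = g x) → (viol v f ↔ viol v g)) {𝓑 : Set V} {d : ℕ}
    {Nb : V → Finset V} (hNb : ∀ a ∈ 𝓑, ∀ b, b ∈ Nb a ↔ b ∈ 𝓑 ∧ meets dm b a)
    (hNc : ∀ a, (Nb a).card ≤ d + 1) {p : ℝ} (hp : 0 ≤ p)
    (hviol : ∀ w ∈ 𝓑, ∀ f₀, (((Tab (dm w) f₀).filter (viol w)).card : ℝ) ≤
      p * (k : ℝ) ^ (dm w).card) {Γ κ : ℝ} {M : ℕ} (hΓ : 1 < Γ)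
    (hw : Γ ^ 5 * p * (1 + 1 / ((d : ℝ) + 1)) ^ (d + 1) ≤ 1 / ((d : ℝ) + 1))
    (hM : 2 * Γ ^ 4 ≤ κ ^ 2 * Γ ^ M) (v : V) (A : Finset (Finset (ℕ × V)))
    (hA : ∀ S ∈ A, (Str dm 𝓑 S ∧ M ≤ S.card) ∧ ∃ j, (j, v) ∈ S) (T₀ : X × ℕ → Fin k) :
    ∑ S ∈ A, Γ ^ (4 * (S.card + 1)) * cp (DS dm S) (BadS dm viol 𝓑 S) univ T₀ ≤ κ ^ 2 := by
  have h0 : (0 : ℝ) < (d : ℝ) + 1 := by positivity
  have hΓ0 : 0 < Γ := by linarith
  have hs0 : (0 : ℝ) ≤ 1 / ((d : ℝ) + 1) := by positivity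
  obtain ⟨w, hwd⟩ : ∃ w : ℝ, w = Γ ^ 5 * p := ⟨_, rfl⟩
  have hw0 : 0 ≤ w := by rw [hwd]; positivity
  have h1 : ∑ S ∈ A, w ^ S.card ≤ 2 := by
    have h2 := str_sum (dm := dm) hNb (w := fun _ => w) (s := fun _ => 1 / ((d : ℝ) + 1))
      (fun _ => hw0) (fun _ => hs0) (by
        intro a _
        rw [Finset.prod_const]
        refine le_trans (mul_le_mul_of_nonneg_left ?_ hw0) (hwd ▸ hw)
        exact pow_le_pow_right₀ (by linarith) (hNc a)) (r := ((d : ℝ) + 1) / ((d : ℝ) + 2))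
      (by positivity) (by rw [div_lt_one (by positivity)]; linarith) (by
        intro b _
        rw [Finset.sum_const, nsmul_eq_mul]
        have h3 : ((Nb b).card : ℝ) ≤ (d : ℝ) + 1 := by exact_mod_cast hNc b
        calc ((Nb b).card : ℝ) * (1 / ((d : ℝ) + 1)) ≤ ((d : ℝ) + 1) * (1 / ((d : ℝ) + 1)) :=
              mul_le_mul_of_nonneg_right h3 hs0
          _ = ((d : ℝ) + 1) / ((d : ℝ) + 2) * (1 + 1 / ((d : ℝ) + 1)) := by field_simp; ring) v A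
      (fun S hS => ⟨(hA S hS).1.1, (hA S hS).2⟩)
    simp only [Finset.prod_const] at h2
    refine h2.trans ?_
    have e : 1 / ((d : ℝ) + 1) / (1 - ((d : ℝ) + 1) / ((d : ℝ) + 2)) =
        ((d : ℝ) + 2) / ((d : ℝ) + 1) := by
      have : (1 : ℝ) - ((d : ℝ) + 1) / ((d : ℝ) + 2) = 1 / ((d : ℝ) + 2) := by
        field_simp; ring
      rw [this]
      field_simp
    rw [e, div_le_iff₀ h0]
    have : (0 : ℝ) ≤ d := Nat.cast_nonneg d
    linarith
  have h2 : Γ ^ M * ∑ S ∈ A, Γ ^ (4 * (S.card + 1)) *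
      cp (DS dm S) (BadS dm viol 𝓑 S) univ T₀ ≤ Γ ^ M * κ ^ 2 := by
    calc Γ ^ M * ∑ S ∈ A, Γ ^ (4 * (S.card + 1)) * cp (DS dm S) (BadS dm viol 𝓑 S) univ T₀
        ≤ ∑ S ∈ A, Γ ^ 4 * w ^ S.card := by
          rw [Finset.mul_sum]
          refine Finset.sum_le_sum fun S hS => ?_
          have h3 := cp_univ_le hk hloc hp hviol (hA S hS).1.1 T₀
          have h4 : Γ ^ M ≤ Γ ^ S.card := pow_le_pow_right₀ hΓ.le (hA S hS).1.2
          have h5 := cp_nonneg (DS dm S) (BadS dm viol 𝓑 S) univ T₀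
          calc Γ ^ M * (Γ ^ (4 * (S.card + 1)) * cp (DS dm S) (BadS dm viol 𝓑 S) univ T₀)
              ≤ Γ ^ S.card * (Γ ^ (4 * (S.card + 1)) * p ^ S.card) := by
                refine mul_le_mul h4 (mul_le_mul_of_nonneg_left h3 (by positivity)) ?_
                  (by positivity)
                exact mul_nonneg (by positivity) h5
            _ = Γ ^ 4 * w ^ S.card := by
                rw [hwd, mul_pow, ← pow_mul]
                ring
      _ = Γ ^ 4 * ∑ S ∈ A, w ^ S.card := by rw [Finset.mul_sum]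
      _ ≤ Γ ^ 4 * 2 := mul_le_mul_of_nonneg_left h1 (by positivity)
      _ ≤ Γ ^ M * κ ^ 2 := by linarith
  exact le_of_mul_le_mul_left h2 (by positivity)

end

end Pool.Agent.Helper105
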