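import Mathlib
import Pool.Agent.Helper105_Full.Init

set_option autoImplicit false

namespace Pool.Agent.Helper105

open MeasureTheory Set
open scoped Classical

attribute [-instance] Finset.instMeasurableSpace
attribute [local instance] finsetBorel sb_finset

universe u

section
variable {X V : Type u} {dm : V → Finset X} {𝓑 : Set V}

/-- the structures through a given event whose size lies in the window. -/
theorem atoms_exist (hne : ∀ v ∈ 𝓑, (dm v).Nonempty)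
    (hfin : ∀ x, {v | v ∈ 𝓑 ∧ x ∈ dm v}.Finite) (N d : ℕ) :
    ∃ A : V → Finset (Finset (ℕ × V)), ∀ v S, S ∈ A v ↔
      (Str dm 𝓑 S ∧ (N ≤ 5 * (d + 1) * S.card ∧ 4 * S.card ≤ N)) ∧ ∃ j, (j, v) ∈ S := by
  have h : ∀ v, {S : Finset (ℕ × V) | (Str dm 𝓑 S ∧ (N ≤ 5 * (d + 1) * S.card ∧
      4 * S.card ≤ N)) ∧ ∃ j, (j, v) ∈ S}.Finite := by
    intro v
    refine (Finset.finite_toSet (Finset.range (N + 1) ×ˢ
      (bl_fin hfin N v).toFinset).powerset).subset ?_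
    rintro S ⟨⟨h1, h2, h3⟩, i, hi⟩
    rw [Finset.mem_coe, Finset.mem_powerset]
    rintro ⟨j, u⟩ hq
    rw [Finset.mem_product, Finset.mem_range, Finite.mem_toFinset]
    have := str_lvl h1 hq
    exact ⟨by simp only; omega, str_bl2 hne h1 hq hi (by omega)⟩
  exact ⟨fun v => (h v).toFinset, fun v S => by
    rw [Finite.mem_toFinset]; rfl⟩

variable [MeasurableSpace X] [StandardBorelSpace X] [MeasurableSpace V] [StandardBorelSpace V]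

theorem atoms_meas (h𝓑 : MeasurableSet 𝓑) (hdm : MeasurableSet {p : V × X | p.2 ∈ dm p.1})
    {N d : ℕ} {A : V → Finset (Finset (ℕ × V))} (hA : ∀ v S, S ∈ A v ↔
      (Str dm 𝓑 S ∧ (N ≤ 5 * (d + 1) * S.card ∧ 4 * S.card ≤ N)) ∧ ∃ j, (j, v) ∈ S) :
    MeasurableSet {q : V × Finset (ℕ × V) | q.2 ∈ A q.1} := by
  have e : {q : V × Finset (ℕ × V) | q.2 ∈ A q.1} =
      (Prod.snd ⁻¹' {S : Finset (ℕ × V) | Str dm 𝓑 S} ∩
        ({q | N ≤ 5 * (d + 1) * q.2.card} ∩ {q | 4 * q.2.card ≤ N})) ∩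
      ⋃ j : ℕ, (fun q : V × Finset (ℕ × V) => (q.2, (j, q.1))) ⁻¹'
        {p : Finset (ℕ × V) × (ℕ × V) | p.2 ∈ p.1} := by
    ext q
    simp only [mem_ofPred_eq, hA, mem_inter_iff, mem_preimage, mem_iUnion]
  rw [e]
  have hc : Measurable fun q : V × Finset (ℕ × V) => q.2.card := scard_meas.comp measurable_snd
  refine MeasurableSet.inter (MeasurableSet.inter ?_ (MeasurableSet.inter ?_ ?_))
    (MeasurableSet.iUnion fun j => ?_)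
  · exact measurable_snd (str_meas h𝓑 hdm)
  · exact measurableSet_le measurable_const (hc.const_mul _)
  · exact measurableSet_le (hc.const_mul _) measurable_const
  · exact (by fun_prop : Measurable fun q : V × Finset (ℕ × V) => (q.2, (j, q.1))) selfmem

variable {k : ℕ} {viol : V → (X → Fin k) → Prop}

/-- A Borel table without legal pyramids of intermediate size. -/
theorem no_window (hk : 0 < k) (h𝓑 : MeasurableSet 𝓑)
    (hdm : MeasurableSet {p : V × X | p.2 ∈ dm p.1})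
    (hfin : ∀ x, {v | v ∈ 𝓑 ∧ x ∈ dm v}.Finite) (hne : ∀ v ∈ 𝓑, (dm v).Nonempty)
    (hvm : ∀ (Z : Type u) [MeasurableSpace Z] [StandardBorelSpace Z] (f : Z → X → Fin k),
      Measurable (fun p : Z × X => f p.1 p.2) →
        MeasurableSet {p : Z × V | p.2 ∈ 𝓑 ∧ viol p.2 (f p.1)})
    (hloc : ∀ v f g, (∀ x ∈ dm v, f x = g x) → (viol v f ↔ viol v g))
    {d : ℕ} {Nb : V → Finset V} (hNb : ∀ a ∈ 𝓑, ∀ b, b ∈ Nb a ↔ b ∈ 𝓑 ∧ meets dm b a)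
    (hNc : ∀ a, (Nb a).card ≤ d + 1) {p : ℝ} (hp : 0 ≤ p)
    (hviol : ∀ w ∈ 𝓑, ∀ f₀, (((Tab (dm w) f₀).filter (viol w)).card : ℝ) ≤
      p * (k : ℝ) ^ (dm w).card) {Γ κ : ℝ} {M : ℕ} (hΓ : 1 < Γ) (hκ : 0 < κ)
    (hw : Γ ^ 5 * p * (1 + 1 / ((d : ℝ) + 1)) ^ (d + 1) ≤ 1 / ((d : ℝ) + 1))
    (hκ1 : (1 / (Γ - 1)) * κ ≤ 1 / 2)
    (hκ2 : 2 * ((1 / (Γ - 1)) * κ) * (1 + ((d : ℝ) + 1)) ≤ Real.log Γ)
    (hM : 2 * Γ ^ 4 ≤ κ ^ 2 * Γ ^ M) {N : ℕ} (hN : N = 5 * (d + 1) * M)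
    {DV : V → Finset (X × ℕ)} (hDV : MeasurableSet {q : V × (X × ℕ) | q.2 ∈ DV q.1})
    (hDVf : ∀ y, {v | y ∈ DV v}.Finite)
    (hDVi : ∀ v ∈ 𝓑, ∀ u, Bl dm 𝓑 N v u → ∀ x ∈ dm u, ∀ r < N, (x, r) ∈ DV v)
    {W : Set (X × ℕ)} (hW : MeasurableSet W) (C : X × ℕ → X × ℕ → Prop) (hC : Equivalence C)
    (hCm : MeasurableSet {q : (X × ℕ) × (X × ℕ) | C q.1 q.2}) (hCf : ∀ y, {z | C y z}.Finite)
    (hCW : ∀ v, ∀ y ∈ DV v, ∀ z ∈ DV v, (y ∈ W ↔ z ∈ W) → C y z) :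
    ∃ T : X × ℕ → Fin k, Measurable T ∧ ∀ v l, Pyr dm v l → (∀ u ∈ l, u ∈ 𝓑) →
      Cons dm viol l T → ¬ (N ≤ 5 * (d + 1) * l.length ∧ 4 * l.length ≤ N) := by
  have hΓ0 : 0 < Γ := by linarith
  have hΓ' : 0 < Γ - 1 := by linarith
  obtain ⟨A, hA⟩ := atoms_exist (dm := dm) (𝓑 := 𝓑) hne hfin N d
  have hAm := atoms_meas h𝓑 hdm hA
  have hAc : ∀ v, ∀ S ∈ A v, 1 ≤ S.card ∧ S.card < N ∧ M ≤ S.card := by
    intro v S hS
    obtain ⟨⟨h1, h2, h3⟩, j, hj⟩ := (hA v S).1 hS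
    have h4 : 0 < S.card := Finset.card_pos.2 ⟨_, hj⟩
    refine ⟨h4, by omega, ?_⟩
    rw [hN] at h2
    exact Nat.le_of_mul_le_mul_left h2 (by positivity)
  have hAD : ∀ v, ∀ S ∈ A v, DS dm S ⊆ DV v := by
    rintro v S hS ⟨x, r⟩ hc
    obtain ⟨h5, h6, h7⟩ := hAc v S hS
    obtain ⟨⟨h1, h2, h3⟩, j, hj⟩ := (hA v S).1 hS
    obtain ⟨⟨⟨i, u⟩, hq, hx⟩, hr⟩ := mem_DS.1 hc
    exact hDVi v (h1.2.1 _ hj) u (str_bl2 hne h1 hq hj (by omega)) x hx r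
      (lt_trans hr h6)
  obtain ⟨lab, hlab⟩ : ∃ lab : Finset (ℕ × V) → Finset V, ∀ S, lab S = S.image Prod.snd :=
    ⟨_, fun _ => rfl⟩
  obtain ⟨cov, hcov⟩ : ∃ cov : Finset (ℕ × V) → Finset V, ∀ S, cov S = (lab S).biUnion Nb :=
    ⟨_, fun _ => rfl⟩
  have hlab1 : ∀ v, ∀ S ∈ A v, v ∈ lab S := by
    intro v S hS
    obtain ⟨-, j, hj⟩ := (hA v S).1 hS
    rw [hlab]
    exact Finset.mem_image.2 ⟨_, hj, rfl⟩
  have hlab2 : ∀ S, (lab S).card ≤ S.card := by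
    intro S
    rw [hlab]
    exact Finset.card_image_le
  have hcov1 : ∀ S, ((cov S).card : ℝ) ≤ ((d : ℝ) + 1) * ((S.card + 1 : ℕ) : ℝ) := by
    intro S
    have h1 : (cov S).card ≤ (d + 1) * (S.card + 1) := by
      rw [hcov]
      refine Finset.card_biUnion_le.trans ?_
      refine (Finset.sum_le_sum fun a _ => hNc a).trans ?_
      rw [Finset.sum_const, smul_eq_mul, Nat.mul_comm]
      exact Nat.mul_le_mul_left _ ((hlab2 S).trans (Nat.le_succ _))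
    exact_mod_cast h1
  have hcov2 : ∀ v, ∀ S ∈ A v, ∀ v', ∀ S' ∈ A v', ¬ Disjoint (DS dm S) (DS dm S') →
      ∃ u ∈ cov S, S' ∈ A u := by
    intro v S hS v' S' hS' h
    rw [Finset.not_disjoint_iff] at h
    obtain ⟨c, hc1, hc2⟩ := h
    obtain ⟨⟨q, hq, hx⟩, -⟩ := mem_DS.1 hc1
    obtain ⟨⟨q', hq', hx'⟩, -⟩ := mem_DS.1 hc2
    obtain ⟨⟨h1, -⟩, -⟩ := (hA v S).1 hS
    obtain ⟨⟨h2, h3⟩, -⟩ := (hA v' S').1 hS'
    refine ⟨q'.2, ?_, (hA _ _).2 ⟨⟨h2, h3⟩, q'.1, hq'⟩⟩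
    rw [hcov, Finset.mem_biUnion]
    refine ⟨q.2, ?_, (hNb q.2 (h1.2.1 q hq) q'.2).2 ⟨h2.2.1 q' hq', c.1, hx', hx⟩⟩
    rw [hlab]
    exact Finset.mem_image.2 ⟨q, hq, rfl⟩
  have hBm : ∀ T, Measurable T → MeasurableSet {S : Finset (ℕ × V) | BadS dm viol 𝓑 S T} :=
    fun T hT => badS_meas h𝓑 hdm hvm T hT
  have hcm : ∀ n : ℕ, Measurable fun S : Finset (ℕ × V) => Γ ^ (n * (S.card + 1)) := fun n =>
    (measurable_of_countable (fun m : ℕ => Γ ^ (n * (m + 1)))).comp scard_meas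
  have hnum : ∀ (n : ℕ) (S : Finset (ℕ × V)), ((S.card + 1 : ℕ) : ℝ) * (Γ ^ (S.card + 1) *
      Γ ^ (n * (S.card + 1))) ≤ (1 / (Γ - 1)) * Γ ^ ((n + 2) * (S.card + 1)) := by
    intro n S
    have h1 := le_pow_div hΓ (S.card + 1)
    calc ((S.card + 1 : ℕ) : ℝ) * (Γ ^ (S.card + 1) * Γ ^ (n * (S.card + 1)))
        ≤ ((1 / (Γ - 1)) * Γ ^ (S.card + 1)) * (Γ ^ (S.card + 1) * Γ ^ (n * (S.card + 1))) :=
          mul_le_mul_of_nonneg_right h1 (by positivity)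
      _ = _ := by ring
  obtain ⟨T₁, hT₁m, hT₁⟩ := stage hk (D := DS dm) (DS_meas hdm) (Bad := BadS dm viol 𝓑)
    (badS_loc hloc 𝓑) hBm hAm hDV hDVf hAD (fun S => S.card + 1) (fun S => by omega)
    (K1 := (d : ℝ) + 1) (by positivity) lab cov hlab1
    (fun v S _ => (hlab2 S).trans (Nat.le_succ _)) (fun v S _ => hcov1 S) hcov2
    (U := univ) (U' := Wᶜ) (W := W) hW.compl hW
    (fun y => ⟨fun _ => em _, fun _ => mem_univ _⟩) (fun y hy hy' => hy' hy) C hC hCm hCf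
    (fun v y hy z hz h1 h2 => hCW v y hy z hz (iff_of_true h1 h2))
    (fun _ => ⟨0, hk⟩) measurable_const
    (c0 := fun S => Γ ^ (4 * (S.card + 1))) (c1 := fun S => Γ ^ (2 * (S.card + 1)))
    (fun S => by positivity) (hcm 2) (Γ := Γ) (K0 := 1 / (Γ - 1)) (ζ0 := κ ^ 2) (ζ1 := κ) hΓ
    (by positivity) hκ (by positivity) (hnum 2)
    (by
      have e : 1 / (Γ - 1) * κ ^ 2 / κ = (1 / (Γ - 1)) * κ := by field_simp
      rw [e]; exact hκ1)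
    (by
      have e : 1 / (Γ - 1) * κ ^ 2 / κ = (1 / (Γ - 1)) * κ := by field_simp
      rw [e]; exact hκ2)
    (fun v => init_bound hk hloc hNb hNc hp hviol hΓ hw hM v (A v)
      (fun S hS => ⟨⟨((hA v S).1 hS).1.1, (hAc v S hS).2.2⟩, ((hA v S).1 hS).2⟩) _)
  obtain ⟨T, hTm, hT⟩ := stage hk (D := DS dm) (DS_meas hdm) (Bad := BadS dm viol 𝓑)
    (badS_loc hloc 𝓑) hBm hAm hDV hDVf hAD (fun S => S.card + 1) (fun S => by omega)
    (K1 := (d : ℝ) + 1) (by positivity) lab cov hlab1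
    (fun v S _ => (hlab2 S).trans (Nat.le_succ _)) (fun v S _ => hcov1 S) hcov2
    (U := Wᶜ) (U' := ∅) (W := Wᶜ) MeasurableSet.empty hW.compl
    (fun y => ⟨fun h => Or.inl h, fun h => h.resolve_right (fun h' => h')⟩)
    (fun y _ hy' => hy') C hC hCm hCf
    (fun v y hy z hz h1 h2 => hCW v y hy z hz (iff_of_false h1 h2))
    T₁ hT₁m
    (c0 := fun S => Γ ^ (2 * (S.card + 1))) (c1 := fun S => Γ ^ (0 * (S.card + 1)))
    (fun S => by positivity) (hcm 0) (Γ := Γ) (K0 := 1 / (Γ - 1)) (ζ0 := κ) (ζ1 := 1) hΓ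
    hκ.le one_pos (by positivity) (hnum 0)
    (by rw [div_one]; exact hκ1) (by rw [div_one]; exact hκ2) (fun v => (hT₁ v).le)
  refine ⟨T, hTm, fun v l h1 h2 h3 h4 => ?_⟩
  have hnel : ∀ u ∈ l, (dm u).Nonempty := fun u hu => hne u (h2 u hu)
  have hcard := lay_card (dm := dm) hnel
  have hS : Lay dm l ∈ A v := by
    rw [hA, hcard]
    exact ⟨⟨lay_str h1 h2, h4⟩, mem_lay (pyr_mem h1)⟩
  have hB : BadS dm viol 𝓑 (Lay dm l) T :=
    ⟨(lay_str h1 h2).2.1, (cons_iff_lcons hloc hnel T).1 h3⟩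
  have h5 := hT v
  have h6 : cp (DS dm (Lay dm l)) (BadS dm viol 𝓑 (Lay dm l)) ∅ T = 1 :=
    cp_empty (fun _ _ h => h) T hB
  have h7 := Finset.single_le_sum (f := fun S => Γ ^ (0 * (S.card + 1)) *
    cp (DS dm S) (BadS dm viol 𝓑 S) ∅ T) (fun S _ => mul_nonneg (by positivity)
      (cp_nonneg _ _ _ _)) hS
  simp only [h6] at h7
  simp only [Nat.zero_mul, pow_zero, one_mul] at h7 h5
  linarith

end

end Pool.Agent.Helper105
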