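import Mathlib
import Pool.Agent.Helper105_Full.Window
import Pool.Agent.Helper105_Sub.Part

set_option autoImplicit false

namespace Pool.Agent.Helper105

open MeasureTheory Set
open scoped Classical

attribute [-instance] Finset.instMeasurableSpace
attribute [local instance] finsetBorel sb_finset

universe u

/-- The abstract core: a hyperfinite Borel family of events that is correct for the symmetric
local lemma is avoided by a Borel map off a null set. -/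
theorem coreH {X V : Type u} [MeasurableSpace X] [StandardBorelSpace X] [MeasurableSpace V]
    [StandardBorelSpace V] {k : ℕ} (hk : 0 < k) {dm : V → Finset X}
    {viol : V → (X → Fin k) → Prop} {𝓑 : Set V} (h𝓑 : MeasurableSet 𝓑)
    (hdm : MeasurableSet {p : V × X | p.2 ∈ dm p.1})
    (hfin : ∀ x, {v | v ∈ 𝓑 ∧ x ∈ dm v}.Finite) (hne : ∀ v ∈ 𝓑, (dm v).Nonempty)
    (hvm : ∀ (Z : Type u) [MeasurableSpace Z] [StandardBorelSpace Z] (f : Z → X → Fin k),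
      Measurable (fun p : Z × X => f p.1 p.2) →
        MeasurableSet {p : Z × V | p.2 ∈ 𝓑 ∧ viol p.2 (f p.1)})
    (hloc : ∀ v f g, (∀ x ∈ dm v, f x = g x) → (viol v f ↔ viol v g))
    {d : ℕ} (hdeg : ∀ v ∈ 𝓑, ∃ U : Finset V, U.card ≤ d + 1 ∧ ∀ w ∈ 𝓑, meets dm w v → w ∈ U)
    {p : ℝ} (hp : 0 ≤ p) (hpd : Real.exp 1 * p * (d + 1) < 1)
    (hviol : ∀ w ∈ 𝓑, ∀ f₀, (((Tab (dm w) f₀).filter (viol w)).card : ℝ) ≤
      p * (k : ℝ) ^ (dm w).card)
    (μ : Measure X) [IsFiniteMeasure μ] (F : ℕ → X → X → Prop) (hF : ∀ n, Equivalence (F n))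
    (hFm : ∀ n, MeasurableSet {q : X × X | F n q.1 q.2}) (hFf : ∀ n x, {y | F n x y}.Finite)
    (hFi : ∀ n x y, F n x y → F (n + 1) x y)
    (hFE : ∀ v ∈ 𝓑, ∀ x ∈ dm v, ∀ y ∈ dm v, ∃ n, F n x y) :
    ∃ f : X → Fin k, Measurable f ∧ ∃ Z₀ : Set X, μ Z₀ = 0 ∧
      ∀ v ∈ 𝓑, viol v f → ∀ x ∈ dm v, x ∈ Z₀ := by
  obtain ⟨Γ, κ, M, hΓ, hw, hκ, hκ1, hκ2, hM16, hM⟩ := consts hp hpd
  obtain ⟨N, hN⟩ : ∃ N, N = 5 * (d + 1) * M := ⟨_, rfl⟩
  have hN16 : 16 ≤ N := by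
    have h1 : 1 * 16 ≤ 5 * (d + 1) * M := Nat.mul_le_mul (by omega) hM16
    omega
  -- the cells
  obtain ⟨D, hD⟩ : ∃ D : V → Finset (X × ℕ), ∀ v c, c ∈ D v ↔ v ∈ 𝓑 ∧
      (∃ u, Bl dm 𝓑 N v u ∧ c.1 ∈ dm u) ∧ c.2 < N := by
    refine ⟨fun v => if v ∈ 𝓑 then ((bl_fin hfin N v).toFinset.biUnion dm) ×ˢ
      Finset.range N else ∅, fun v c => ?_⟩
    beta_reduce
    split_ifs with h
    · simp only [Finset.mem_product, Finset.mem_biUnion, Finite.mem_toFinset, mem_ofPred_eq,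
        Finset.mem_range, h, true_and]
    · simp [h]
  have hDm : MeasurableSet {q : V × (X × ℕ) | q.2 ∈ D q.1} := by
    have e : {q : V × (X × ℕ) | q.2 ∈ D q.1} = ((Prod.fst ⁻¹' 𝓑) ∩
        {q | ∃ u, (q, u) ∈ {r : (V × (X × ℕ)) × V | Bl dm 𝓑 N r.1.1 r.2 ∧
          r.1.2.1 ∈ dm r.2}}) ∩ {q | q.2.2 < N} := by
      ext ⟨v, c⟩
      simp only [mem_ofPred_eq, hD, mem_inter_iff, mem_preimage, and_assoc]
    rw [e]
    refine MeasurableSet.inter (MeasurableSet.inter ?_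
      (proj (MeasurableSet.inter ?_ ?_) ?_)) ?_
    · exact measurable_fst h𝓑
    · exact (by fun_prop : Measurable fun r : (V × (X × ℕ)) × V => (r.1.1, r.2))
        (bl_meas h𝓑 hdm hfin N)
    · exact (by fun_prop : Measurable fun r : (V × (X × ℕ)) × V => (r.2, r.1.2.1)) hdm
    · rintro ⟨v, c⟩
      exact ((bl_fin hfin N v).subset fun u hu => hu.1).countable
    · exact measurableSet_lt (measurable_snd.comp measurable_snd) measurable_const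
  have hDfin : ∀ c, {v | c ∈ D v}.Finite := by
    intro c
    refine ((hfin c.1).biUnion (t := fun u => {v | Bl dm 𝓑 N u v})
      fun u _ => bl_fin hfin _ _).subset ?_
    intro v hv
    obtain ⟨h1, ⟨u, h2, h3⟩, -⟩ := (hD v c).1 hv
    simp only [mem_iUnion]
    exact ⟨u, ⟨bl_mem h1 h2, h3⟩, bl_symm h1 h2⟩
  -- hyperfiniteness of the cells
  have hFmono : ∀ m n x y, m ≤ n → F m x y → F n x y := by
    intro m n x y hmn h
    induction hmn with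
    | refl => exact h
    | step _ ih => exact hFi _ _ _ ih
  have hFB : ∀ j, ∀ v ∈ 𝓑, ∀ u, Bl dm 𝓑 j v u → ∀ x ∈ dm v, ∀ y ∈ dm u, ∃ n, F n x y := by
    intro j v hv
    induction j with
    | zero =>
      intro u hu x hx y hy
      rw [Bl] at hu
      subst hu
      exact hFE u hv x hx y hy
    | succ j ih =>
      rintro u ⟨hu, z, hz, a, ha1, ha2⟩ x hx y hy
      obtain ⟨n₁, hn₁⟩ := ih z hz x hx a ha2
      obtain ⟨n₂, hn₂⟩ := hFE u hu a ha1 y hy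
      exact ⟨max n₁ n₂, (hF _).trans (hFmono _ _ _ _ (le_max_left _ _) hn₁)
        (hFmono _ _ _ _ (le_max_right _ _) hn₂)⟩
  obtain ⟨F', hF'⟩ : ∃ F' : ℕ → X × ℕ → X × ℕ → Prop, ∀ n a b, F' n a b ↔
      a = b ∨ (F n a.1 b.1 ∧ a.2 ≤ n ∧ b.2 ≤ n) := ⟨_, fun _ _ _ => Iff.rfl⟩
  have hF'e : ∀ n, Equivalence (F' n) := by
    intro n
    refine ⟨fun a => (hF' n a a).2 (Or.inl rfl), ?_, ?_⟩
    · intro a b h
      rw [hF'] at h ⊢
      rcases h with rfl | ⟨h1, h2, h3⟩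
      · exact Or.inl rfl
      · exact Or.inr ⟨(hF n).symm h1, h3, h2⟩
    · intro a b c h h'
      rw [hF'] at h h' ⊢
      rcases h with rfl | ⟨h1, h2, h3⟩
      · exact h'
      · rcases h' with rfl | ⟨h4, h5, h6⟩
        · exact Or.inr ⟨h1, h2, h3⟩
        · exact Or.inr ⟨(hF n).trans h1 h4, h2, h6⟩
  have hF'm : ∀ n, MeasurableSet {q : (X × ℕ) × (X × ℕ) | F' n q.1 q.2} := by
    intro n
    have e : {q : (X × ℕ) × (X × ℕ) | F' n q.1 q.2} = {q | q.1 = q.2} ∪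
        ((fun q : (X × ℕ) × (X × ℕ) => (q.1.1, q.2.1)) ⁻¹' {q : X × X | F n q.1 q.2} ∩
        ({q | q.1.2 ≤ n} ∩ {q | q.2.2 ≤ n})) := by
      ext q
      simp only [mem_ofPred_eq, hF', mem_union, mem_inter_iff, mem_preimage]
    rw [e]
    refine (measurableSet_eq_fun measurable_fst measurable_snd).union
      (MeasurableSet.inter ?_ (MeasurableSet.inter ?_ ?_))
    · exact (by fun_prop : Measurable fun q : (X × ℕ) × (X × ℕ) => (q.1.1, q.2.1)) (hFm n)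
    · exact measurableSet_le (measurable_snd.comp measurable_fst) measurable_const
    · exact measurableSet_le (measurable_snd.comp measurable_snd) measurable_const
  have hF'f : ∀ n a, {b | F' n a b}.Finite := by
    intro n a
    refine ((finite_singleton a).union ((hFf n a.1).prod (finite_Iic n))).subset ?_
    intro b hb
    rcases (hF' n a b).1 hb with rfl | ⟨h1, h2, h3⟩
    · exact Or.inl rfl
    · exact Or.inr ⟨h1, h3⟩
  have hF'i : ∀ n a b, F' n a b → F' (n + 1) a b := by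
    intro n a b h
    rw [hF'] at h ⊢
    rcases h with rfl | ⟨h1, h2, h3⟩
    · exact Or.inl rfl
    · exact Or.inr ⟨hFi _ _ _ h1, by omega, by omega⟩
  have hF'D : ∀ v, ∀ a ∈ D v, ∀ b ∈ D v, ∃ n, F' n a b := by
    intro v a ha b hb
    obtain ⟨h1, ⟨u, h2, h3⟩, h4⟩ := (hD v a).1 ha
    obtain ⟨-, ⟨u', h5, h6⟩, h7⟩ := (hD v b).1 hb
    obtain ⟨x, hx⟩ := hne v h1
    obtain ⟨n₁, hn₁⟩ := hFB _ v h1 u h2 x hx a.1 h3
    obtain ⟨n₂, hn₂⟩ := hFB _ v h1 u' h5 x hx b.1 h6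
    refine ⟨max (max n₁ n₂) N, (hF' _ _ _).2 (Or.inr ⟨?_, ?_, ?_⟩)⟩
    · exact (hF _).trans ((hF _).symm (hFmono _ _ _ _
        ((le_max_left n₁ n₂).trans (le_max_left _ _)) hn₁))
        (hFmono _ _ _ _ ((le_max_right n₁ n₂).trans (le_max_left _ _)) hn₂)
    · exact h4.le.trans (le_max_right _ _)
    · exact h7.le.trans (le_max_right _ _)
  obtain ⟨Z, W, C, hZm, hZ0, hZi, hWm, hC, hCm, hCf, hCW⟩ :=
    partition hDm hDfin (μ.map fun x => ((x, 0) : X × ℕ)) F' hF'e hF'm hF'f hF'i hF'D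
  -- the part of the instance with finite clusters
  obtain ⟨𝓑₂, h𝓑₂⟩ : ∃ 𝓑₂ : Set V, ∀ v, v ∈ 𝓑₂ ↔ v ∈ 𝓑 ∧ ∀ y ∈ D v, y ∉ Z :=
    ⟨{v | v ∈ 𝓑 ∧ ∀ y ∈ D v, y ∉ Z}, fun _ => Iff.rfl⟩
  have h𝓑₂m : MeasurableSet 𝓑₂ := by
    have e : 𝓑₂ = 𝓑 ∩ {v | ∃ y, (v, y) ∈ {q : V × (X × ℕ) | q.2 ∈ D q.1 ∧ q.2 ∈ Z}}ᶜ := by
      ext v
      simp only [h𝓑₂, mem_inter_iff, mem_compl_iff, mem_ofPred_eq, not_exists, not_and]
    rw [e]
    refine h𝓑.inter (MeasurableSet.compl (proj (hDm.inter (measurable_snd hZm)) fun v => ?_))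
    exact ((D v).finite_toSet.subset fun y hy => hy.1).countable
  have hsub : ∀ v ∈ 𝓑₂, v ∈ 𝓑 := fun v hv => ((h𝓑₂ v).1 hv).1
  have hfin₂ : ∀ x, {v | v ∈ 𝓑₂ ∧ x ∈ dm v}.Finite := fun x =>
    (hfin x).subset fun v hv => ⟨hsub v hv.1, hv.2⟩
  have hne₂ : ∀ v ∈ 𝓑₂, (dm v).Nonempty := fun v hv => hne v (hsub v hv)
  have hvm₂ : ∀ (Z : Type u) [MeasurableSpace Z] [StandardBorelSpace Z] (f : Z → X → Fin k),
      Measurable (fun p : Z × X => f p.1 p.2) →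
        MeasurableSet {p : Z × V | p.2 ∈ 𝓑₂ ∧ viol p.2 (f p.1)} := by
    intro Z _ _ f hf
    have e : {p : Z × V | p.2 ∈ 𝓑₂ ∧ viol p.2 (f p.1)} = Prod.snd ⁻¹' 𝓑₂ ∩
        {p : Z × V | p.2 ∈ 𝓑 ∧ viol p.2 (f p.1)} := by
      ext p
      simp only [mem_ofPred_eq, mem_inter_iff, mem_preimage]
      constructor
      · rintro ⟨h1, h2⟩
        exact ⟨h1, hsub _ h1, h2⟩
      · rintro ⟨h1, -, h2⟩
        exact ⟨h1, h2⟩
    rw [e]
    exact (measurable_snd h𝓑₂m).inter (hvm Z f hf)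
  have hBl₂ : ∀ n v u, Bl dm 𝓑₂ n v u → Bl dm 𝓑 n v u := by
    intro n
    induction n with
    | zero => intro v u h; exact h
    | succ n ih =>
      rintro v u ⟨h1, z, h2, h3⟩
      exact ⟨hsub u h1, z, ih v z h2, h3⟩
  obtain ⟨Nb, hNb, hNc⟩ : ∃ Nb : V → Finset V, (∀ a ∈ 𝓑₂, ∀ b, b ∈ Nb a ↔ b ∈ 𝓑₂ ∧
      meets dm b a) ∧ ∀ a, (Nb a).card ≤ d + 1 := by
    choose! U hU1 hU2 using hdeg
    refine ⟨fun a => if a ∈ 𝓑₂ then (U a).filter (fun b => b ∈ 𝓑₂ ∧ meets dm b a) else ∅, ?_, ?_⟩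
    · intro a ha b
      simp only [ha, if_true, Finset.mem_filter]
      constructor
      · exact fun h => h.2
      · exact fun h => ⟨hU2 a (hsub a ha) b (hsub b h.1) h.2, h⟩
    · intro a
      beta_reduce
      split_ifs with h
      · exact (Finset.card_filter_le _ _).trans (hU1 a (hsub a h))
      · simp
  obtain ⟨D', hD'⟩ : ∃ D' : V → Finset (X × ℕ), ∀ v y, y ∈ D' v ↔ v ∈ 𝓑₂ ∧ y ∈ D v := by
    refine ⟨fun v => if v ∈ 𝓑₂ then D v else ∅, fun v y => ?_⟩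
    beta_reduce
    split_ifs with h <;> simp [h]
  obtain ⟨T, hTm, hT⟩ := no_window hk h𝓑₂m hdm hfin₂ hne₂ hvm₂ hloc hNb hNc hp
    (fun w hw => hviol w (hsub w hw)) hΓ hκ hw hκ1 hκ2 hM hN (DV := D') (by
      have e : {q : V × (X × ℕ) | q.2 ∈ D' q.1} = Prod.fst ⁻¹' 𝓑₂ ∩
          {q : V × (X × ℕ) | q.2 ∈ D q.1} := by
        ext ⟨v, y⟩
        simp only [mem_ofPred_eq, hD', mem_inter_iff, mem_preimage]
      rw [e]
      exact (measurable_fst h𝓑₂m).inter hDm)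
    (fun y => (hDfin y).subset fun v hv => ((hD' v y).1 hv).2)
    (fun v hv u hu x hx r hr => (hD' v _).2 ⟨hv, (hD v _).2
      ⟨hsub v hv, ⟨u, hBl₂ _ _ _ hu, hx⟩, hr⟩⟩) hWm C hC hCm hCf
    (fun v y hy z hz h => hCW v ((h𝓑₂ v).1 ((hD' v y).1 hy).1).2 y ((hD' v y).1 hy).2 z
      ((hD' v z).1 hz).2 h)
  have hsmall := local_to_global (dm := dm) (viol := viol) hloc (𝓑 := 𝓑₂) hne₂ (T := T)
    (fun _ => N) (d := d) (fun v _ => hN16) (fun v hv => ⟨Nb v, hNc v,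
      fun w hw hm => (hNb v hv w).2 ⟨hw, hm⟩, fun w hw => ⟨((hNb v hv w).1 hw).1, by omega⟩⟩) hT
  obtain ⟨f, hf, hf'⟩ := run h𝓑₂m hdm hfin₂
    (by
      intro f hf
      have h1 := hvm₂ V (fun _ => f) (hf.comp measurable_snd)
      exact (measurable_id.prodMk measurable_id) h1) hloc hne₂ hTm (fun _ => N) (by
      intro v l h1 h2 h3
      have h4 := hsmall v l h1 h2 h3
      have h5 : l.length ≤ 5 * (d + 1) * l.length := Nat.le_mul_of_pos_left _ (by omega)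
      omega)
  refine ⟨f, hf, {x | (x, 0) ∈ Z}, ?_, ?_⟩
  · have h1 : Measurable fun x : X => ((x, 0) : X × ℕ) := measurable_id.prodMk measurable_const
    rw [Measure.map_apply h1 hZm] at hZ0
    exact hZ0
  · intro v hv hvi x hx
    have hv2 : v ∉ 𝓑₂ := fun h => hf' v h hvi
    rw [h𝓑₂, not_and] at hv2
    have h3 := hv2 hv
    push Not at h3
    obtain ⟨y, hy1, hy2⟩ := h3
    refine hZi v y hy1 (x, 0) ?_ hy2
    rw [hD]
    exact ⟨hv, ⟨v, bl_mono hne (Nat.zero_le _) hv rfl, hx⟩, by simp only; omega⟩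

end Pool.Agent.Helper105
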