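import Mathlib
import Pool.Agent.Helper105_Full.CoreH
import Pool.Agent.Helper105_Sub.Growth2

set_option autoImplicit false

namespace Pool.Agent.Helper105

open MeasureTheory Set
open scoped Classical ENNReal

attribute [-instance] Finset.instMeasurableSpace
attribute [local instance] finsetBorel sb_finset

section
universe u
variable {X : Type u} [MeasurableSpace X] [StandardBorelSpace X] {k : ℕ}
  {𝓑 : Set (Finset (Finset (X × Fin k)))}

/-- Hyperfinite instances at the tight criterion. -/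
theorem main_hyp (hk : 0 < k) (h𝓑 : MeasurableSet 𝓑) (hbad : ∀ B ∈ 𝓑, IsBadEvent B)
    (hcor : CorrectSLLL 𝓑) (μ : Measure X) [IsProbabilityMeasure μ]
    (hH : MuHyperfinite μ (Joined 𝓑)) :
    ∃ f : X → Fin k, Measurable f ∧ μ (defect f 𝓑) = 0 := by
  by_cases hne0 : 𝓑.Nonempty
  swap
  · refine ⟨fun _ => ⟨0, hk⟩, measurable_const, ?_⟩
    have : defect (fun _ => (⟨0, hk⟩ : Fin k)) 𝓑 = ∅ := by
      ext x
      simp only [defect, mem_ofPred_eq, mem_empty_iff_false, iff_false]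
      rintro ⟨B, hB, -⟩
      exact hne0 ⟨B, hB⟩
    rw [this, measure_empty]
  obtain ⟨p, d, hp, hd, hp0, hlt, hpB, hdeg⟩ := slll_data hk hbad hcor hne0
  have hne := dom_nonempty hk hbad hlt hpB
  have hfin := events_at (𝓑 := 𝓑) fun B hB => (hdeg B hB).1
  obtain ⟨G, hGm, hGμ, hYi, F, hF, hFm, hFf, hFi, hFE⟩ := hH
  have hGi : ∀ B ∈ 𝓑, ∀ x ∈ dom B, ∀ y ∈ dom B, x ∈ G → y ∈ G := by
    intro B hB x hx y hy hxG
    exact hYi x y (Relation.EqvGen.rel _ _ ⟨B, hB, hx, hy⟩) hxG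
  obtain ⟨𝓑', h𝓑'⟩ : ∃ 𝓑' : Set (Finset (Finset (X × Fin k))), ∀ B, B ∈ 𝓑' ↔
      B ∈ 𝓑 ∧ ∀ x ∈ dom B, x ∈ G := ⟨{B | B ∈ 𝓑 ∧ ∀ x ∈ dom B, x ∈ G}, fun _ => Iff.rfl⟩
  have hsub : 𝓑' ⊆ 𝓑 := fun B hB => ((h𝓑' B).1 hB).1
  have h𝓑'm : MeasurableSet 𝓑' := by
    have e : 𝓑' = 𝓑 ∩ {B | ∃ x, (B, x) ∈ {p : Finset (Finset (X × Fin k)) × X |
        p.2 ∈ dom p.1 ∧ p.2 ∈ Gᶜ}}ᶜ := by
      ext B
      simp only [h𝓑', mem_ofPred_eq, mem_inter_iff, mem_compl_iff, not_exists, not_and, not_not]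
    rw [e]
    refine h𝓑.inter (MeasurableSet.compl (proj ?_ ?_))
    · exact dom_meas.inter (measurable_snd hGm.compl)
    · intro B
      exact ((dom B).finite_toSet.subset fun x hx => hx.1).countable
  obtain ⟨f, hf, Z₀, hZ₀, hf'⟩ := coreH (dm := dom) (viol := vio) hk h𝓑'm dom_meas
    (fun x => (hfin x).subset fun B hB => ⟨hsub hB.1, hB.2⟩)
    (fun B hB => hne B (hsub hB)) (fun Z _ _ f hf => vio_meas h𝓑'm Z f hf) vio_loc (d := d)
    (by
      intro B hB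
      have h1 := hdeg B (hsub hB)
      refine ⟨insert B h1.1.toFinset, ?_, ?_⟩
      · refine (Finset.card_insert_le _ _).trans ?_
        rw [← Set.ncard_eq_toFinset_card _ h1.1]
        exact Nat.add_le_add_right h1.2 1
      · intro B' hB' hm
        rw [Finset.mem_insert]
        by_cases h : B' = B
        · exact Or.inl h
        · refine Or.inr ?_
          rw [Finite.mem_toFinset]
          exact ⟨hsub hB', h, hm⟩)
    (p := p) hp0.le hlt
    (fun B hB f₀ => vio_prob hk (hbad B (hsub hB)) (hpB B (hsub hB)) f₀)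
    μ F hF hFm hFf hFi
    (by
      intro B hB x hx y hy
      have hxG := ((h𝓑' B).1 hB).2 x hx
      exact (hFE x hxG y).1 (Relation.EqvGen.rel _ _ ⟨B, hsub hB, hx, hy⟩))
  refine ⟨f, hf, measure_mono_null ?_ (measure_union_null hZ₀ hGμ)⟩
  rintro x ⟨B, hB, φ, hφ, hx, hall⟩
  by_cases hxG : x ∈ G
  · refine Or.inl ?_
    have hxB : x ∈ dom B := by
      rw [Finset.mem_image] at hx
      obtain ⟨q, hq, rfl⟩ := hx
      exact fst_mem_dom hφ hq
    exact hf' B ((h𝓑' B).2 ⟨hB, fun y hy => hGi B hB x hxB y hy hxG⟩) ⟨φ, hφ, hall⟩ x hxB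
  · exact Or.inr hxG

end

end Pool.Agent.Helper105
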